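import Pool.Agent.Lib_helper87.JOL.KBD

/-!
# JOL block KAN (helper37): analyticity and asymptotics of `K_μ`. Cites `kbd_int`.
-/

set_option autoImplicit false

namespace Pool.Agent.JOL

open MeasureTheory Filter Topology Set
open Pool.Agent.JO Pool.Agent.JO.FM
open scoped ComplexConjugate ENNReal ContDiff

/-! ## analyticity -/

theorem kan_int_real (a x : ℝ) (hx : 0 < x) :
    Integrable (fun u : ℝ => Real.exp (-(x * Real.cosh u) + a * u)) := by
  refine (kbd_int (a : ℂ) x hx).norm.congr (Eventually.of_forall fun u => ?_)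
  show ‖Complex.exp (-(x : ℂ) * (Real.cosh u : ℝ) + a * u)‖ = _
  rw [Complex.norm_exp]
  congr 1
  simp

/-- an integrable majorant -/
theorem kan_int_abs (a x : ℝ) (hx : 0 < x) :
    Integrable (fun u : ℝ => Real.exp (-(x * Real.cosh u) + a * u) +
      Real.exp (-(x * Real.cosh u) + -a * u)) :=
  (kan_int_real a x hx).add (kan_int_real (-a) x hx)

theorem kan_exp_abs (b a c u : ℝ) (hb : |b| ≤ a) : Real.exp (-c + b * u) ≤
    Real.exp (-c + a * u) + Real.exp (-c + -a * u) := by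
  obtain ⟨h1, h2⟩ := abs_le.1 hb
  rcases le_total 0 u with hu | hu
  · have h3 : b * u ≤ a * u := mul_le_mul_of_nonneg_right h2 hu
    have h4 := Real.exp_le_exp.2 (add_le_add_right h3 (-c))
    have h5 := Real.exp_pos (-c + -a * u)
    linarith
  · have h3 : b * u ≤ -a * u := mul_le_mul_of_nonpos_right h1 hu
    have h4 := Real.exp_le_exp.2 (add_le_add_right h3 (-c))
    have h5 := Real.exp_pos (-c + a * u)
    linarith

/-- `K_μ(z)`, `Re z > 0` -/
noncomputable def kan_KC (μ z : ℂ) : ℂ :=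
  (1 / 2) * ∫ u : ℝ, Complex.exp (-z * (Real.cosh u : ℝ) + μ * u)

theorem kan_norm (μ z : ℂ) (u : ℝ) : ‖Complex.exp (-z * (Real.cosh u : ℝ) + μ * u)‖ =
    Real.exp (-(z.re * Real.cosh u) + μ.re * u) := by
  rw [Complex.norm_exp]
  congr 1
  simp

theorem kan_cont (μ z : ℂ) : Continuous (fun u : ℝ => Complex.exp (-z * (Real.cosh u : ℝ) + μ * u)) := by
  have := Real.continuous_cosh
  fun_prop

theorem kan_cosh_le (u : ℝ) : Real.cosh u ≤ Real.exp u + Real.exp (-u) := by
  rw [Real.cosh_eq]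
  have := Real.exp_pos u
  have := Real.exp_pos (-u)
  linarith

theorem kan_KC_deriv (μ z : ℂ) (hz : 0 < z.re) : DifferentiableAt ℂ (kan_KC μ) z := by
  have hε : 0 < z.re / 2 := by positivity
  set a : ℝ := |μ.re| + 1 with ha
  set c : ℝ := z.re / 2 with hc
  have key := hasDerivAt_integral_of_dominated_loc_of_deriv_le (μ := volume)
    (F := fun (w : ℂ) (u : ℝ) => Complex.exp (-w * (Real.cosh u : ℝ) + μ * u))
    (F' := fun (w : ℂ) (u : ℝ) => Complex.exp (-w * (Real.cosh u : ℝ) + μ * u) *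
      (-(Real.cosh u : ℝ) : ℂ))
    (x₀ := z) (s := Metric.ball z (z.re / 2))
    (bound := fun u => 2 * (Real.exp (-(c * Real.cosh u) + a * u) +
      Real.exp (-(c * Real.cosh u) + -a * u)))
    (Metric.ball_mem_nhds z hε)
    (Eventually.of_forall fun w => (kan_cont μ w).aestronglyMeasurable)
    ?_ ?_ ?_ ?_ ?_
  · exact (key.2.differentiableAt.const_mul (1 / 2))
  · refine (integrable_norm_iff (kan_cont μ z).aestronglyMeasurable).1 ?_
    refine (kan_int_real μ.re z.re hz).congr (Eventually.of_forall fun u => ?_)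
    exact (kan_norm μ z u).symm
  · have := Real.continuous_cosh
    refine Continuous.aestronglyMeasurable ?_
    fun_prop
  · refine Eventually.of_forall fun u w hw => ?_
    rw [norm_mul, kan_norm, norm_neg, Complex.norm_real, Real.norm_eq_abs,
      abs_of_pos (Real.cosh_pos u)]
    have h1 : c ≤ w.re := by
      have h2 : |(w - z).re| ≤ ‖w - z‖ := Complex.abs_re_le_norm _
      have h3 : ‖w - z‖ < z.re / 2 := by rwa [Metric.mem_ball, dist_eq_norm] at hw
      rw [Complex.sub_re] at h2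
      have h4 := (abs_le.1 (h2.trans h3.le)).1
      rw [hc]
      linarith
    have h2 : Real.exp (-(w.re * Real.cosh u) + μ.re * u) ≤
        Real.exp (-(c * Real.cosh u) + μ.re * u) := by
      refine Real.exp_le_exp.2 ?_
      have := mul_le_mul_of_nonneg_right h1 (Real.cosh_pos u).le
      linarith
    have h3 : Real.exp (-(c * Real.cosh u) + μ.re * u) * Real.cosh u ≤
        Real.exp (-(c * Real.cosh u) + (μ.re + 1) * u) +
          Real.exp (-(c * Real.cosh u) + (μ.re - 1) * u) := by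
      calc _ ≤ Real.exp (-(c * Real.cosh u) + μ.re * u) * (Real.exp u + Real.exp (-u)) :=
            mul_le_mul_of_nonneg_left (kan_cosh_le u) (Real.exp_pos _).le
        _ = _ := by
          rw [mul_add, ← Real.exp_add, ← Real.exp_add]
          congr 2 <;> ring
    have h4 := kan_exp_abs (μ.re + 1) a (c * Real.cosh u) u (by
      rw [ha]
      exact (abs_add_le _ _).trans (by rw [abs_one]))
    have h5 := kan_exp_abs (μ.re - 1) a (c * Real.cosh u) u (by
      rw [ha]
      exact (abs_sub _ _).trans (by rw [abs_one]))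
    have h6 := mul_le_mul_of_nonneg_right h2 (Real.cosh_pos u).le
    linarith
  · exact (kan_int_abs a c hε).const_mul 2
  · refine Eventually.of_forall fun u w _ => ?_
    have h1 : HasDerivAt (fun w : ℂ => -w * (Real.cosh u : ℝ) + μ * u)
        (-1 * ((Real.cosh u : ℝ) : ℂ)) w :=
      ((hasDerivAt_neg w).mul_const _).add_const _
    have h2 := h1.cexp
    refine h2.congr_deriv ?_
    ring

theorem kan_KC_analytic (μ : ℂ) : AnalyticOnNhd ℂ (kan_KC μ) {z | 0 < z.re} :=
  DifferentiableOn.analyticOnNhd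
    (fun z hz => (kan_KC_deriv μ z hz).differentiableWithinAt)
    (isOpen_lt continuous_const Complex.continuous_re)

theorem kan_analytic_pr (μ : ℂ) : AnalyticOnNhd ℝ (KK μ) (Set.Ioi 0) := by
  intro x hx
  have h1 : AnalyticAt ℂ (kan_KC μ) ((x : ℝ) : ℂ) := kan_KC_analytic μ x (by simpa using hx)
  have h2 : AnalyticAt ℝ (kan_KC μ) (Complex.ofRealCLM x) := h1.restrictScalars
  exact h2.comp (Complex.ofRealCLM.analyticAt x)

/-! ## asymptotics -/

theorem kan_cosh_lower (y : ℝ) : y ^ 2 / 2 ≤ Real.cosh y - 1 := by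
  have h1 : Real.cosh y = 1 + 2 * Real.sinh (y / 2) ^ 2 := by
    have h2 := Real.cosh_two_mul (y / 2)
    have h3 := Real.cosh_sq (y / 2)
    have h4 : 2 * (y / 2) = y := by ring
    rw [h4, h3] at h2
    rw [h2]
    ring
  have h2 : (y / 2) ^ 2 ≤ Real.sinh (y / 2) ^ 2 := by
    rcases le_total 0 (y / 2) with h | h
    · have h3 := Real.self_le_sinh_iff.2 h
      nlinarith
    · have h3 := Real.sinh_le_self_iff.2 h
      nlinarith
  rw [h1]
  nlinarith

theorem kan_lim (t : ℝ) : Tendsto (fun x : ℝ => x * (Real.cosh (t / √x) - 1)) atTop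
    (𝓝 (t ^ 2 / 2)) := by
  have hup : Tendsto (fun x : ℝ => t ^ 2 / 2 * Real.exp (t ^ 2 / 2 / x)) atTop
      (𝓝 (t ^ 2 / 2)) := by
    have h1 : Tendsto (fun x : ℝ => t ^ 2 / 2 / x) atTop (𝓝 0) :=
      tendsto_const_nhds.div_atTop tendsto_id
    have h2 := (Real.continuous_exp.tendsto 0).comp h1
    rw [Real.exp_zero] at h2
    have h3 := h2.const_mul (t ^ 2 / 2)
    rw [mul_one] at h3
    exact h3
  refine tendsto_of_tendsto_of_tendsto_of_le_of_le' tendsto_const_nhds hup ?_ ?_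
  · filter_upwards [eventually_gt_atTop (0 : ℝ)] with x hx
    have h1 := kan_cosh_lower (t / √x)
    rw [div_pow, Real.sq_sqrt hx.le] at h1
    have h2 := mul_le_mul_of_nonneg_left h1 hx.le
    have e : x * (t ^ 2 / x / 2) = t ^ 2 / 2 := by field_simp
    rwa [e] at h2
  · filter_upwards [eventually_gt_atTop (0 : ℝ)] with x hx
    have h1 := Real.cosh_le_exp_half_sq (t / √x)
    rw [div_pow, Real.sq_sqrt hx.le] at h1
    have e : t ^ 2 / x / 2 = t ^ 2 / 2 / x := by ring
    rw [e] at h1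
    set h := t ^ 2 / 2 / x with hh
    have h2 : Real.exp h - 1 ≤ h * Real.exp h := by
      have h3 := Real.add_one_le_exp (-h)
      have h4 : Real.exp (-h) * Real.exp h = 1 := by
        rw [← Real.exp_add, neg_add_cancel, Real.exp_zero]
      have h5 := mul_le_mul_of_nonneg_right h3 (Real.exp_pos h).le
      rw [h4] at h5
      linarith
    have h3 : x * (Real.cosh (t / √x) - 1) ≤ x * (h * Real.exp h) :=
      mul_le_mul_of_nonneg_left (by linarith) hx.le
    have h4 : x * (h * Real.exp h) = t ^ 2 / 2 * Real.exp h := by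
      rw [hh]
      field_simp
    rwa [h4] at h3

/-- the rescaled integrand -/
noncomputable def kan_f (μ : ℂ) (x t : ℝ) : ℂ :=
  Complex.exp (-((x * (Real.cosh (t / √x) - 1) : ℝ) : ℂ) + μ * ((t / √x : ℝ) : ℂ))

theorem kan_scale (μ : ℂ) {x : ℝ} (hx : 0 < x) : ((√x * Real.exp x : ℝ) : ℂ) * KK μ x =
    (1 / 2) * ∫ t : ℝ, kan_f μ x t := by
  have h1 := Measure.integral_comp_div (fun u : ℝ => Complex.exp
    (-((x * (Real.cosh u - 1) : ℝ) : ℂ) + μ * (u : ℂ))) (√x)
  have h2 : ∫ t : ℝ, kan_f μ x t = ((√x : ℝ) : ℂ) * ∫ u : ℝ, Complex.exp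
      (-((x * (Real.cosh u - 1) : ℝ) : ℂ) + μ * (u : ℂ)) := by
    rw [abs_of_pos (Real.sqrt_pos.2 hx), Complex.real_smul] at h1
    exact h1
  have h3 : ∀ u : ℝ, Complex.exp (-((x * (Real.cosh u - 1) : ℝ) : ℂ) + μ * (u : ℂ)) =
      ((Real.exp x : ℝ) : ℂ) * Complex.exp (-(x : ℂ) * (Real.cosh u : ℝ) + μ * u) := by
    intro u
    rw [Complex.ofReal_exp, ← Complex.exp_add]
    congr 1
    push_cast
    ring
  rw [h2]
  simp_rw [h3]
  rw [integral_const_mul]
  unfold KK
  push_cast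
  ring

theorem kan_asymp_pr (μ : ℂ) : Tendsto (fun x : ℝ => ((√x * Real.exp x : ℝ) : ℂ) * KK μ x) atTop
    (𝓝 ((√(Real.pi / 2) : ℝ) : ℂ)) := by
  have hlim : Tendsto (fun x : ℝ => ∫ t : ℝ, kan_f μ x t) atTop
      (𝓝 (∫ t : ℝ, Complex.exp (-((t ^ 2 / 2 : ℝ) : ℂ)))) := by
    refine tendsto_integral_filter_of_dominated_convergence
      (fun t => Real.exp (-(t ^ 2 / 2) + |μ.re| * t) + Real.exp (-(t ^ 2 / 2) + -|μ.re| * t))
      ?_ ?_ ?_ ?_
    · refine Eventually.of_forall fun x => ?_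
      have := Real.continuous_cosh
      refine Continuous.aestronglyMeasurable ?_
      unfold kan_f
      fun_prop
    · filter_upwards [eventually_ge_atTop (1 : ℝ)] with x hx
      refine Eventually.of_forall fun t => ?_
      have hx0 : 0 < x := by linarith
      have hsx : 1 ≤ √x := by rw [← Real.sqrt_one]; exact Real.sqrt_le_sqrt hx
      unfold kan_f
      rw [Complex.norm_exp]
      have e : (-((x * (Real.cosh (t / √x) - 1) : ℝ) : ℂ) + μ * ((t / √x : ℝ) : ℂ)).re =
          -(x * (Real.cosh (t / √x) - 1)) + (μ.re / √x) * t := by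
        simp only [Complex.add_re, Complex.neg_re, Complex.ofReal_re, Complex.re_mul_ofReal]
        ring
      rw [e]
      have h1 := kan_cosh_lower (t / √x)
      rw [div_pow, Real.sq_sqrt hx0.le] at h1
      have h2 := mul_le_mul_of_nonneg_left h1 hx0.le
      have e2 : x * (t ^ 2 / x / 2) = t ^ 2 / 2 := by field_simp
      rw [e2] at h2
      have h3 : Real.exp (-(x * (Real.cosh (t / √x) - 1)) + (μ.re / √x) * t) ≤
          Real.exp (-(t ^ 2 / 2) + (μ.re / √x) * t) := Real.exp_le_exp.2 (by linarith)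
      refine h3.trans (kan_exp_abs _ _ _ _ ?_)
      rw [abs_div, abs_of_pos (by linarith : (0 : ℝ) < √x)]
      exact div_le_self (abs_nonneg _) hsx
    · have h1 : ∀ a : ℝ, Integrable (fun t : ℝ => Real.exp (-(t ^ 2 / 2) + a * t)) := by
        intro a
        have h2 := (integrable_cexp_quadratic (b := (1 / 2 : ℂ)) (by norm_num) (a : ℂ) 0).norm
        refine h2.congr (Eventually.of_forall fun t => ?_)
        simp only
        rw [Complex.norm_exp]
        congr 1
        have e : (-(1 / 2 : ℂ) * (t : ℂ) ^ 2 + (a : ℂ) * (t : ℂ) + 0) =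
            ((-(t ^ 2 / 2) + a * t : ℝ) : ℂ) := by
          push_cast
          ring
        rw [e, Complex.ofReal_re]
      exact (h1 _).add (h1 _)
    · refine Eventually.of_forall fun t => ?_
      unfold kan_f
      refine (Complex.continuous_exp.tendsto _).comp ?_
      have h1 := ((Complex.continuous_ofReal.tendsto _).comp (kan_lim t)).neg
      have h2 : Tendsto (fun x : ℝ => t / √x) atTop (𝓝 0) :=
        tendsto_const_nhds.div_atTop Real.tendsto_sqrt_atTop
      have h3 := ((Complex.continuous_ofReal.tendsto _).comp h2).const_mul μ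
      have h4 := h1.add h3
      rw [Complex.ofReal_zero, mul_zero, add_zero] at h4
      exact h4
  have hval : ∫ t : ℝ, Complex.exp (-((t ^ 2 / 2 : ℝ) : ℂ)) = ((√(2 * Real.pi) : ℝ) : ℂ) := by
    have h1 := integral_gaussian (1 / 2)
    have h2 : ∀ t : ℝ, Complex.exp (-((t ^ 2 / 2 : ℝ) : ℂ)) =
        ((Real.exp (-(1 / 2) * t ^ 2) : ℝ) : ℂ) := by
      intro t
      rw [Complex.ofReal_exp]
      congr 1
      push_cast
      ring
    simp_rw [h2]
    rw [integral_complex_ofReal, h1]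
    congr 2
    ring
  rw [hval] at hlim
  have h5 := hlim.const_mul (1 / 2)
  have e : (1 / 2 : ℂ) * ((√(2 * Real.pi) : ℝ) : ℂ) = ((√(Real.pi / 2) : ℝ) : ℂ) := by
    have e1 : (2 : ℝ) * Real.pi = 2 ^ 2 * (Real.pi / 2) := by ring
    have e2 : √(2 * Real.pi) = 2 * √(Real.pi / 2) := by
      rw [e1, Real.sqrt_mul (by norm_num), Real.sqrt_sq (by norm_num)]
    rw [e2]
    push_cast
    ring
  rw [e] at h5
  refine h5.congr' ?_
  filter_upwards [eventually_gt_atTop (0 : ℝ)] with x hx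
  exact (kan_scale μ hx).symm

theorem kan_nonzero_pr {ι : Type*} (S : Finset ι) (μ c : ι → ℂ) (hc : ∑ i ∈ S, c i ≠ 0) (a b : ℝ)
    (ha : 0 < a) (hab : a < b) : ∃ x ∈ Set.Ioo a b, ∑ i ∈ S, c i * KK (μ i) x ≠ 0 := by
  by_contra hcon
  push Not at hcon
  have hA : AnalyticOnNhd ℝ (fun x : ℝ => ∑ i ∈ S, c i * KK (μ i) x) (Ioi 0) := by
    intro x hx
    refine Finset.analyticAt_fun_sum _ fun i _ => ?_
    exact analyticAt_const.mul (kan_analytic_pr (μ i) x hx)
  have hx₀ : (a + b) / 2 ∈ Ioi (0 : ℝ) := by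
    show 0 < (a + b) / 2
    linarith
  have hev : (fun x : ℝ => ∑ i ∈ S, c i * KK (μ i) x) =ᶠ[𝓝 ((a + b) / 2)] 0 := by
    have h1 : Ioo a b ∈ 𝓝 ((a + b) / 2) := Ioo_mem_nhds (by linarith) (by linarith)
    filter_upwards [h1] with x hx
    exact hcon x hx
  have hzero := hA.eqOn_zero_of_preconnected_of_eventuallyEq_zero isPreconnected_Ioi hx₀ hev
  have h1 : Tendsto (fun x : ℝ => ∑ i ∈ S, c i * (((√x * Real.exp x : ℝ) : ℂ) * KK (μ i) x)) atTop
      (𝓝 (∑ i ∈ S, c i * ((√(Real.pi / 2) : ℝ) : ℂ))) :=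
    tendsto_finsetSum _ fun i _ => (kan_asymp_pr (μ i)).const_mul (c i)
  have h2 : Tendsto (fun x : ℝ => ∑ i ∈ S, c i * (((√x * Real.exp x : ℝ) : ℂ) * KK (μ i) x)) atTop
      (𝓝 0) := by
    refine tendsto_const_nhds.congr' ?_
    filter_upwards [eventually_gt_atTop (0 : ℝ)] with x hx
    have h3 : ∑ i ∈ S, c i * KK (μ i) x = 0 := hzero hx
    have h4 : ∑ i ∈ S, c i * (((√x * Real.exp x : ℝ) : ℂ) * KK (μ i) x) =
        ((√x * Real.exp x : ℝ) : ℂ) * ∑ i ∈ S, c i * KK (μ i) x := by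
      rw [Finset.mul_sum]
      refine Finset.sum_congr rfl fun i _ => ?_
      ring
    rw [h4, h3, mul_zero]
  have h3 := tendsto_nhds_unique h1 h2
  rw [← Finset.sum_mul, mul_eq_zero] at h3
  rcases h3 with h3 | h3
  · exact hc h3
  · have h4 : √(Real.pi / 2) = 0 := by exact_mod_cast h3
    rw [Real.sqrt_eq_zero'] at h4
    have := Real.pi_pos
    linarith

/-! ## final names -/

theorem kan_analytic (μ : ℂ) : AnalyticOnNhd ℝ (KK μ) (Set.Ioi 0) :=
  kan_analytic_pr μ

theorem kan_asymp (μ : ℂ) : Tendsto (fun x : ℝ => ((√x * Real.exp x : ℝ) : ℂ) * KK μ x) atTop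
    (𝓝 ((√(Real.pi / 2) : ℝ) : ℂ)) :=
  kan_asymp_pr μ

theorem kan_nonzero {ι : Type*} (S : Finset ι) (μ c : ι → ℂ) (hc : ∑ i ∈ S, c i ≠ 0) (a b : ℝ)
    (ha : 0 < a) (hab : a < b) : ∃ x ∈ Set.Ioo a b, ∑ i ∈ S, c i * KK (μ i) x ≠ 0 :=
  kan_nonzero_pr S μ c hc a b ha hab

end Pool.Agent.JOL
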