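import Pool.Agent.Lib_helper87.JOL.KBD

/-! # Project JO, part L3, block KDV: derivative and recurrence of the K-Bessel function -/

set_option autoImplicit false

namespace Pool.Agent.JOL

open MeasureTheory Filter Topology
open Pool.Agent.JO Pool.Agent.JO.FM
open scoped ComplexConjugate ENNReal ContDiff

/-- the integrand -/
noncomputable def kdvE (μ : ℂ) (x u : ℝ) : ℂ :=
  Complex.exp (-(x : ℂ) * (Real.cosh u : ℝ) + μ * u)

theorem kdv_KK (μ : ℂ) (x : ℝ) : KK μ x = (1 / 2) * ∫ u : ℝ, kdvE μ x u := rfl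

theorem kdv_intE (μ : ℂ) {x : ℝ} (hx : 0 < x) : Integrable (kdvE μ x) := kbd_int μ x hx

theorem kdv_shift (μ ν : ℂ) (x u : ℝ) : kdvE (μ + ν) x u = kdvE μ x u * Complex.exp (ν * u) := by
  rw [kdvE, kdvE, ← Complex.exp_add]
  congr 1
  ring

theorem kdv_cosh (μ : ℂ) (x u : ℝ) :
    ((Real.cosh u : ℝ) : ℂ) * kdvE μ x u = (kdvE (μ - 1) x u + kdvE (μ + 1) x u) / 2 := by
  rw [sub_eq_add_neg, kdv_shift, kdv_shift, Complex.ofReal_cosh, Complex.cosh, one_mul,
    neg_mul, one_mul]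
  ring

theorem kdv_sinh (μ : ℂ) (x u : ℝ) :
    ((Real.sinh u : ℝ) : ℂ) * kdvE μ x u = (kdvE (μ + 1) x u - kdvE (μ - 1) x u) / 2 := by
  rw [sub_eq_add_neg μ 1, kdv_shift, kdv_shift, Complex.ofReal_sinh, Complex.sinh, one_mul,
    neg_mul, one_mul]
  ring

theorem kdv_cosh_int (μ : ℂ) {x : ℝ} (hx : 0 < x) :
    Integrable (fun u : ℝ => ((Real.cosh u : ℝ) : ℂ) * kdvE μ x u) := by
  simp only [kdv_cosh]
  exact ((kdv_intE (μ - 1) hx).add (kdv_intE (μ + 1) hx)).div_const 2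

theorem kdv_norm (μ : ℂ) (x u : ℝ) : ‖kdvE μ x u‖ = Real.exp (-x * Real.cosh u + μ.re * u) := by
  rw [kdvE, Complex.norm_exp]
  congr 1
  simp

theorem kdv_cts (μ : ℂ) (x : ℝ) : Continuous (kdvE μ x) := by
  unfold kdvE
  have h := Real.continuous_cosh
  fun_prop

theorem kdv_deriv_pr (μ : ℂ) (x : ℝ) (hx : 0 < x) :
    HasDerivAt (KK μ) (-(KK (μ - 1) x + KK (μ + 1) x) / 2) x := by
  have hx2 : 0 < x / 2 := by linarith
  have h1 := hasDerivAt_integral_of_dominated_loc_of_deriv_le (𝕜 := ℝ) (μ := (volume : Measure ℝ))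
    (F := fun x u => kdvE μ x u) (F' := fun x u => -(((Real.cosh u : ℝ) : ℂ) * kdvE μ x u))
    (x₀ := x) (s := Metric.ball x (x / 2))
    (bound := fun u => ‖((Real.cosh u : ℝ) : ℂ) * kdvE μ (x / 2) u‖)
    (Metric.ball_mem_nhds x hx2)
    (Eventually.of_forall fun x' => (kdv_cts μ x').aestronglyMeasurable)
    (kdv_intE μ hx)
    (kdv_cosh_int μ hx).neg.aestronglyMeasurable
    (Eventually.of_forall fun u x' hx' => ?_)
    (kdv_cosh_int μ hx2).norm
    (Eventually.of_forall fun u x' hx' => ?_)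
  · have h2 := h1.2.const_mul (1 / 2 : ℂ)
    have h3 : (1 / 2 : ℂ) * ∫ u : ℝ, -(((Real.cosh u : ℝ) : ℂ) * kdvE μ x u) =
        -(KK (μ - 1) x + KK (μ + 1) x) / 2 := by
      rw [integral_neg]
      simp only [kdv_cosh]
      rw [integral_div, integral_add (kdv_intE _ hx) (kdv_intE _ hx), kdv_KK, kdv_KK]
      ring
    rw [h3] at h2
    exact h2
  · rw [norm_neg, norm_mul, norm_mul, kdv_norm, kdv_norm]
    refine mul_le_mul_of_nonneg_left (Real.exp_le_exp.2 ?_) (norm_nonneg _)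
    rw [Metric.mem_ball, Real.dist_eq, abs_lt] at hx'
    have h2 := Real.cosh_pos u
    nlinarith [hx'.1]
  · have h2 : HasDerivAt (fun y : ℝ => -(y : ℂ) * (Real.cosh u : ℝ) + μ * u)
        (-((Real.cosh u : ℝ) : ℂ)) x' := by
      have h3 : HasDerivAt (fun y : ℝ => (y : ℂ)) 1 x' := Complex.ofRealCLM.hasDerivAt
      have h4 := ((h3.neg).mul_const ((Real.cosh u : ℝ) : ℂ)).add_const (μ * u)
      exact h4.congr_deriv (by ring)
    have h3 := h2.cexp
    refine h3.congr_deriv ?_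
    rw [kdvE]
    ring

theorem kdv_rec_pr (μ : ℂ) (x : ℝ) (hx : 0 < x) :
    KK (μ + 1) x - KK (μ - 1) x = 2 * μ / x * KK μ x := by
  have hx0 : (x : ℂ) ≠ 0 := by exact_mod_cast hx.ne'
  have h1 : ∀ u : ℝ, HasDerivAt (kdvE μ x)
      (-(x : ℂ) * ((kdvE (μ + 1) x u - kdvE (μ - 1) x u) / 2) + μ * kdvE μ x u) u := by
    intro u
    have h3 : HasDerivAt (fun y : ℝ => (y : ℂ)) 1 u := Complex.ofRealCLM.hasDerivAt
    have h4 : HasDerivAt (fun y : ℝ => ((Real.cosh y : ℝ) : ℂ)) ((Real.sinh u : ℝ) : ℂ) u :=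
      (Real.hasDerivAt_cosh u).ofReal_comp
    have h5 := ((h4.const_mul (-(x : ℂ))).add (h3.const_mul μ)).cexp
    refine h5.congr_deriv ?_
    rw [← kdv_sinh, kdvE]
    simp only [Pi.add_apply]
    ring
  have hi1 : Integrable (fun u : ℝ => -(x : ℂ) * ((kdvE (μ + 1) x u - kdvE (μ - 1) x u) / 2)) :=
    (((kdv_intE (μ + 1) hx).sub (kdv_intE (μ - 1) hx)).div_const 2).const_mul (-(x : ℂ))
  have hi2 : Integrable (fun u : ℝ => μ * kdvE μ x u) := (kdv_intE μ hx).const_mul μ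
  have h2 := integral_eq_zero_of_hasDerivAt_of_integrable h1 (hi1.add hi2) (kdv_intE μ hx)
  rw [integral_add hi1 hi2, integral_const_mul, integral_const_mul,
    integral_div, integral_sub (kdv_intE (μ + 1) hx) (kdv_intE (μ - 1) hx)] at h2
  rw [kdv_KK, kdv_KK, kdv_KK]
  field_simp
  linear_combination (-2 : ℂ) * h2

theorem kdv_neg_pr (μ : ℂ) (x : ℝ) : KK (-μ) x = KK μ x := by
  rw [kdv_KK, kdv_KK, ← integral_neg_eq_self (fun u => kdvE (-μ) x u)]
  congr 1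
  refine integral_congr_ae (Eventually.of_forall fun u => ?_)
  show kdvE (-μ) x (-u) = kdvE μ x u
  rw [kdvE, kdvE, Real.cosh_neg]
  congr 1
  push_cast
  ring

theorem kdv_conj_pr (μ : ℂ) (x : ℝ) : conj (KK μ x) = KK (conj μ) x := by
  rw [kdv_KK, kdv_KK, map_mul, ← integral_conj]
  have hc : conj (1 / 2 : ℂ) = 1 / 2 := by
    have h := Complex.conj_ofReal (1 / 2)
    push_cast at h
    exact h
  rw [hc]
  congr 1
  · refine integral_congr_ae (Eventually.of_forall fun u => ?_)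
    show conj (kdvE μ x u) = kdvE (conj μ) x u
    rw [kdvE, kdvE, ← Complex.exp_conj]
    congr 1
    simp only [map_add, map_mul, map_neg, Complex.conj_ofReal]

/-! ## final names -/

theorem kdv_deriv (μ : ℂ) (x : ℝ) (hx : 0 < x) :
    HasDerivAt (KK μ) (-(KK (μ - 1) x + KK (μ + 1) x) / 2) x :=
  kdv_deriv_pr μ x hx

theorem kdv_rec (μ : ℂ) (x : ℝ) (hx : 0 < x) :
    KK (μ + 1) x - KK (μ - 1) x = 2 * μ / x * KK μ x :=
  kdv_rec_pr μ x hx

theorem kdv_neg (μ : ℂ) (x : ℝ) : KK (-μ) x = KK μ x :=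
  kdv_neg_pr μ x

theorem kdv_conj (μ : ℂ) (x : ℝ) : conj (KK μ x) = KK (conj μ) x :=
  kdv_conj_pr μ x

end Pool.Agent.JOL
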