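import Pool.Agent.Lib_helper87.JOL.KBD

/-!
# JOL block KPR (helper37): the Mellin transform of `K_μ K_ν`. Cites `kbd_int`, `kbd_meas`.
-/

set_option autoImplicit false

namespace Pool.Agent.JOL

open MeasureTheory Filter Topology Set
open Pool.Agent.JO Pool.Agent.JO.FM
open scoped ComplexConjugate ENNReal ContDiff

/-- `L(p) = log (2 cosh p)` -/
noncomputable def kpr_L (p : ℝ) : ℝ := Real.log (2 * Real.cosh p)

/-- the substitution -/
noncomputable def kpr_phi (p : ℝ) : ℝ := Real.exp p / (Real.exp p + Real.exp (-p))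

theorem kpr_expL (p : ℝ) : Real.exp (kpr_L p) = Real.exp p + Real.exp (-p) := by
  unfold kpr_L
  have h : 0 < Real.cosh p := Real.cosh_pos p
  rw [Real.exp_log (by positivity), Real.cosh_eq]
  ring

theorem kpr_phi_eq (p : ℝ) : kpr_phi p = Real.exp (p - kpr_L p) := by
  unfold kpr_phi
  rw [Real.exp_sub, kpr_expL]

theorem kpr_phi_eq' (p : ℝ) : 1 - kpr_phi p = Real.exp (-p - kpr_L p) := by
  unfold kpr_phi
  rw [Real.exp_sub, kpr_expL]
  have h : 0 < Real.exp p + Real.exp (-p) := by positivity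
  field_simp
  ring

theorem kpr_phi_deriv (p : ℝ) : HasDerivAt kpr_phi (2 * Real.exp (-(2 * kpr_L p))) p := by
  have h : 0 < Real.exp p + Real.exp (-p) := by positivity
  have h1 : HasDerivAt (fun p : ℝ => Real.exp p + Real.exp (-p)) (Real.exp p - Real.exp (-p)) p := by
    refine ((Real.hasDerivAt_exp p).add ((hasDerivAt_neg p).exp)).congr_deriv ?_
    ring
  have h2 := (Real.hasDerivAt_exp p).div h1 h.ne'
  refine h2.congr_deriv ?_
  have e : Real.exp (-(2 * kpr_L p)) = (Real.exp (kpr_L p) ^ 2)⁻¹ := by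
    rw [Real.exp_neg, ← Real.exp_nat_mul]
    norm_num
  rw [e, kpr_expL]
  have e2 : Real.exp p * Real.exp (-p) = 1 := by rw [← Real.exp_add, add_neg_cancel, Real.exp_zero]
  field_simp
  nlinarith [e2]

theorem kpr_phi_inj : Function.Injective kpr_phi := by
  intro p q h
  rw [kpr_phi_eq, kpr_phi_eq, Real.exp_eq_exp] at h
  have h' : 1 - kpr_phi p = 1 - kpr_phi q := by rw [kpr_phi_eq, kpr_phi_eq, h]
  rw [kpr_phi_eq', kpr_phi_eq', Real.exp_eq_exp] at h'
  linarith

theorem kpr_phi_image : kpr_phi '' univ = Ioo 0 1 := by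
  ext y
  simp only [image_univ, mem_range, mem_Ioo]
  constructor
  · rintro ⟨p, rfl⟩
    refine ⟨by rw [kpr_phi_eq]; exact Real.exp_pos _, ?_⟩
    have h := Real.exp_pos (-p - kpr_L p)
    rw [← kpr_phi_eq'] at h
    linarith
  · rintro ⟨h0, h1⟩
    have h2 : 0 < y / (1 - y) := div_pos h0 (by linarith)
    refine ⟨Real.log (y / (1 - y)) / 2, ?_⟩
    set t := Real.log (y / (1 - y)) / 2 with ht
    have e1 : Real.exp t * Real.exp t = y / (1 - y) := by
      rw [← Real.exp_add, ht, add_halves, Real.exp_log h2]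
    have e2 : Real.exp t * Real.exp (-t) = 1 := by
      rw [← Real.exp_add, add_neg_cancel, Real.exp_zero]
    unfold kpr_phi
    have h3 : 0 < Real.exp t + Real.exp (-t) := by positivity
    have h4 : 0 < Real.exp t := Real.exp_pos t
    rw [div_eq_iff h3.ne']
    have h5 : (1 - y) ≠ 0 := by linarith
    have e3 : Real.exp t * Real.exp t * (1 - y) = y := by rw [e1]; field_simp
    refine mul_left_cancel₀ h4.ne' ?_
    nlinarith [e2, e3]

theorem kpr_cpow (t : ℝ) (z : ℂ) : ((Real.exp t : ℝ) : ℂ) ^ z = Complex.exp (t * z) := by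
  rw [Complex.cpow_def_of_ne_zero (by exact_mod_cast (Real.exp_pos t).ne'),
    ← Complex.ofReal_log (Real.exp_pos t).le, Real.log_exp]

theorem kpr_integrand (u v : ℂ) (p : ℝ) : |2 * Real.exp (-(2 * kpr_L p))| •
    (((kpr_phi p : ℝ) : ℂ) ^ (u - 1) * (1 - ((kpr_phi p : ℝ) : ℂ)) ^ (v - 1)) =
      2 * Complex.exp ((u - v) * p - (u + v) * kpr_L p) := by
  have e1 : (1 - ((kpr_phi p : ℝ) : ℂ)) = ((1 - kpr_phi p : ℝ) : ℂ) := by push_cast; rfl
  rw [e1, kpr_phi_eq', kpr_phi_eq, kpr_cpow, kpr_cpow, abs_of_pos (by positivity),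
    Complex.real_smul, Complex.ofReal_mul, Complex.ofReal_exp, mul_assoc, ← Complex.exp_add,
    ← Complex.exp_add]
  congr 2
  push_cast
  ring

/-- `2 ∫ e^{ap} (2 cosh p)^{-s} dp = Γ((s+a)/2) Γ((s-a)/2) / Γ(s)` -/
theorem kpr_J (a s : ℂ) (h : |a.re| < s.re) :
    Integrable (fun p : ℝ => Complex.exp (a * p - s * kpr_L p)) ∧
      2 * ∫ p : ℝ, Complex.exp (a * p - s * kpr_L p) =
        Complex.Gamma ((s + a) / 2) * Complex.Gamma ((s - a) / 2) / Complex.Gamma s := by
  obtain ⟨ha1, ha2⟩ := abs_lt.1 h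
  have hu : 0 < ((s + a) / 2).re := by
    have : ((s + a) / 2).re = (s.re + a.re) / 2 := by simp
    rw [this]; linarith
  have hv : 0 < ((s - a) / 2).re := by
    have : ((s - a) / 2).re = (s.re - a.re) / 2 := by simp
    rw [this]; linarith
  set u := (s + a) / 2 with hudef
  set v := (s - a) / 2 with hvdef
  have huv1 : u - v = a := by rw [hudef, hvdef]; ring
  have huv2 : u + v = s := by rw [hudef, hvdef]; ring
  set g : ℝ → ℂ := fun x => (x : ℂ) ^ (u - 1) * (1 - (x : ℂ)) ^ (v - 1) with hg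
  have hconv : IntegrableOn g (Ioo 0 1) := by
    have := Complex.betaIntegral_convergent hu hv
    rw [intervalIntegrable_iff_integrableOn_Ioo_of_le zero_le_one] at this
    exact this
  have hbeta : Complex.betaIntegral u v = ∫ x in Ioo (0 : ℝ) 1, g x := by
    unfold Complex.betaIntegral
    rw [intervalIntegral.integral_of_le zero_le_one, integral_Ioc_eq_integral_Ioo]
  have hd : ∀ x ∈ (univ : Set ℝ), HasDerivWithinAt kpr_phi (2 * Real.exp (-(2 * kpr_L x))) univ x :=
    fun x _ => (kpr_phi_deriv x).hasDerivWithinAt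
  have hint := integrableOn_image_iff_integrableOn_abs_deriv_smul MeasurableSet.univ hd
    kpr_phi_inj.injOn g
  have hval := integral_image_eq_integral_abs_deriv_smul MeasurableSet.univ hd
    kpr_phi_inj.injOn g
  rw [kpr_phi_image] at hint hval
  have hfun : (fun x => |2 * Real.exp (-(2 * kpr_L x))| • g (kpr_phi x)) =
      fun p : ℝ => 2 * Complex.exp (a * p - s * kpr_L p) := by
    funext p
    rw [hg, ← huv1, ← huv2]
    exact kpr_integrand u v p
  rw [hfun] at hint hval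
  rw [integrableOn_univ] at hint
  rw [setIntegral_univ] at hval
  have h1 := hint.1 hconv
  constructor
  · have h2 := h1.const_mul (1 / 2)
    refine h2.congr (Eventually.of_forall fun p => ?_)
    show (1 / 2 : ℂ) * (2 * _) = _
    ring
  · rw [← integral_const_mul, ← hval, ← hbeta]
    have h3 := Complex.Gamma_mul_Gamma_eq_betaIntegral hu hv
    rw [huv2] at h3
    rw [h3, mul_div_cancel_left₀]
    refine Complex.Gamma_ne_zero_of_re_pos ?_
    have := abs_nonneg a.re
    linarith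

/-! ## the Mellin transform of `K_μ` -/

theorem kpr_cosh (u : ℝ) : (Real.cosh u : ℝ) = Real.exp (kpr_L u - Real.log 2) := by
  rw [Real.exp_sub, kpr_expL, Real.exp_log two_pos, Real.cosh_eq]

theorem kpr_meas_L : Measurable kpr_L := by
  unfold kpr_L
  exact Real.measurable_log.comp (Real.continuous_cosh.measurable.const_mul 2)

/-- the integrand on `(0, ∞) × ℝ` -/
noncomputable def kpr_F (μ s : ℂ) (z : ℝ × ℝ) : ℂ :=
  (z.1 : ℂ) ^ (s - 1) * Complex.exp (-(z.1 : ℂ) * (Real.cosh z.2 : ℝ) + μ * z.2)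

theorem kpr_F_meas (μ s : ℂ) : Measurable (kpr_F μ s) := by
  unfold kpr_F
  have h1 : Measurable (fun z : ℝ × ℝ => (z.1 : ℂ) ^ (s - 1)) :=
    (Complex.measurable_ofReal.comp measurable_fst).pow_const _
  have h2 : Measurable (fun z : ℝ × ℝ =>
      Complex.exp (-(z.1 : ℂ) * (Real.cosh z.2 : ℝ) + μ * z.2)) := by
    refine Complex.measurable_exp.comp ?_
    refine Measurable.add ?_ ?_
    · exact (Complex.measurable_ofReal.comp measurable_fst).neg.mul
        (Complex.measurable_ofReal.comp (Real.continuous_cosh.measurable.comp measurable_snd))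
    · exact (Complex.measurable_ofReal.comp measurable_snd).const_mul _
  exact h1.mul h2

theorem kpr_Jr (μ s : ℂ) (h : |μ.re| < s.re) :
    Integrable (fun u : ℝ => Real.exp (μ.re * u - s.re * kpr_L u)) := by
  refine (kpr_J μ s h).1.norm.congr (Eventually.of_forall fun u => ?_)
  show ‖Complex.exp (μ * u - s * kpr_L u)‖ = _
  rw [Complex.norm_exp]
  congr 1
  simp

theorem kpr_gam_int {σ c : ℝ} (hσ : 0 < σ) (hc : 0 < c) :
    IntegrableOn (fun x : ℝ => x ^ (σ - 1) * Real.exp (-(c * x))) (Ioi 0) := by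
  by_contra h
  have h1 := Real.integral_rpow_mul_exp_neg_mul_Ioi hσ hc
  rw [integral_undef h] at h1
  have h2 : 0 < (1 / c) ^ σ * Real.Gamma σ := by
    have := Real.Gamma_pos_of_pos hσ
    positivity
  linarith

theorem kpr_inv_cosh (u : ℝ) : 1 / Real.cosh u = Real.exp (Real.log 2 - kpr_L u) := by
  rw [kpr_cosh, one_div, ← Real.exp_neg, neg_sub]

theorem kpr_F_norm (μ s : ℂ) (u : ℝ) {x : ℝ} (hx : 0 < x) : ‖kpr_F μ s (x, u)‖ =
      Real.exp (μ.re * u) * (x ^ (s.re - 1) * Real.exp (-(Real.cosh u * x))) := by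
  unfold kpr_F
  rw [norm_mul, Complex.norm_cpow_eq_rpow_re_of_pos hx, Complex.norm_exp]
  have e1 : (s - 1).re = s.re - 1 := by simp
  have e2 : (-(x : ℂ) * (Real.cosh u : ℝ) + μ * u).re = -(Real.cosh u * x) + μ.re * u := by
    simp
    ring
  rw [e1]
  show x ^ (s.re - 1) * Real.exp (-(x : ℂ) * (Real.cosh u : ℝ) + μ * u).re = _
  rw [e2, Real.exp_add]
  ring

theorem kpr_F_int (μ s : ℂ) (h : |μ.re| < s.re) :
    Integrable (kpr_F μ s) ((volume.restrict (Ioi (0 : ℝ))).prod volume) := by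
  have hs : 0 < s.re := lt_of_le_of_lt (abs_nonneg _) h
  rw [integrable_prod_iff' (kpr_F_meas μ s).aestronglyMeasurable]
  constructor
  · refine Eventually.of_forall fun u => ?_
    have h1 := (kpr_gam_int hs (Real.cosh_pos u)).const_mul (Real.exp (μ.re * u))
    have hm : Measurable (fun x : ℝ => kpr_F μ s (x, u)) :=
      (kpr_F_meas μ s).comp measurable_prodMk_right
    rw [← integrable_norm_iff hm.aestronglyMeasurable]
    refine IntegrableOn.congr_fun h1 (fun x hx => ?_) measurableSet_Ioi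
    exact (kpr_F_norm μ s u hx).symm
  · have h2 : ∀ u : ℝ, ∫ x in Ioi (0 : ℝ), ‖kpr_F μ s (x, u)‖ =
        Real.exp (s.re * Real.log 2) * Real.Gamma s.re *
          Real.exp (μ.re * u - s.re * kpr_L u) := by
      intro u
      rw [setIntegral_congr_fun measurableSet_Ioi (fun x hx => kpr_F_norm μ s u hx),
        integral_const_mul, Real.integral_rpow_mul_exp_neg_mul_Ioi hs (Real.cosh_pos u),
        kpr_inv_cosh, ← Real.exp_mul]
      have e : Real.exp ((Real.log 2 - kpr_L u) * s.re) =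
          Real.exp (s.re * Real.log 2) * Real.exp (-(s.re * kpr_L u)) := by
        rw [← Real.exp_add]
        congr 1
        ring
      have e2 : Real.exp (μ.re * u - s.re * kpr_L u) =
          Real.exp (μ.re * u) * Real.exp (-(s.re * kpr_L u)) := by
        rw [← Real.exp_add, sub_eq_add_neg]
      rw [e, e2]
      ring
    simp_rw [h2]
    exact (kpr_Jr μ s h).const_mul _

theorem kpr_F_inner (μ s : ℂ) (hs : 0 < s.re) (u : ℝ) :
    ∫ x in Ioi (0 : ℝ), kpr_F μ s (x, u) =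
      Complex.exp (s * Real.log 2) * Complex.Gamma s * Complex.exp (μ * u - s * kpr_L u) := by
  have h1 : ∀ x : ℝ, kpr_F μ s (x, u) =
      Complex.exp (μ * u) * ((x : ℂ) ^ (s - 1) * Complex.exp (-((Real.cosh u : ℝ) * (x : ℂ)))) := by
    intro x
    unfold kpr_F
    show (x : ℂ) ^ (s - 1) * Complex.exp (-(x : ℂ) * (Real.cosh u : ℝ) + μ * u) = _
    rw [Complex.exp_add]
    have e : -(x : ℂ) * (Real.cosh u : ℝ) = -((Real.cosh u : ℝ) * (x : ℂ)) := by ring
    rw [e]
    ring
  simp_rw [h1]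
  rw [integral_const_mul, Complex.integral_cpow_mul_exp_neg_mul_Ioi hs (Real.cosh_pos u)]
  have e1 : (1 / ((Real.cosh u : ℝ) : ℂ)) = ((1 / Real.cosh u : ℝ) : ℂ) := by push_cast; rfl
  rw [e1, kpr_inv_cosh, kpr_cpow]
  have e : Complex.exp (((Real.log 2 - kpr_L u : ℝ) : ℂ) * s) =
      Complex.exp (s * Real.log 2) * Complex.exp (-(s * kpr_L u)) := by
    rw [← Complex.exp_add]
    congr 1
    push_cast
    ring
  have e2 : Complex.exp (μ * u - s * kpr_L u) =
      Complex.exp (μ * u) * Complex.exp (-(s * kpr_L u)) := by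
    rw [← Complex.exp_add, sub_eq_add_neg]
  rw [e, e2]
  ring

/-- the Mellin transform of `K_μ` -/
theorem kpr_mellin_one (μ s : ℂ) (h : |μ.re| < s.re) : MellinConvergent (KK μ) s ∧
    mellin (KK μ) s = (1 / 2) * (Complex.exp (s * Real.log 2) * Complex.Gamma s) *
      ∫ u : ℝ, Complex.exp (μ * u - s * kpr_L u) := by
  have hs : 0 < s.re := lt_of_le_of_lt (abs_nonneg _) h
  have hF := kpr_F_int μ s h
  have h1 : ∀ x : ℝ, (x : ℂ) ^ (s - 1) • KK μ x = (1 / 2) * ∫ u : ℝ, kpr_F μ s (x, u) := by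
    intro x
    unfold kpr_F KK
    simp only [smul_eq_mul]
    rw [integral_const_mul]
    ring
  constructor
  · unfold MellinConvergent
    simp_rw [h1]
    exact (hF.integral_prod_left).const_mul _
  · unfold mellin
    simp_rw [h1]
    rw [integral_const_mul, integral_integral_swap (f := fun x u => kpr_F μ s (x, u)) hF]
    simp_rw [kpr_F_inner μ s hs]
    rw [integral_const_mul]
    ring

/-! ## the product formula -/

theorem kpr_cosh_add (p q : ℝ) : Real.cosh (p + q) + Real.cosh (p - q) =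
    2 * Real.cosh q * Real.cosh p := by
  rw [Real.cosh_add, Real.cosh_sub]
  ring

/-- `K_μ(x) K_ν(x) = ∫ e^{(μ-ν)q} K_{μ+ν}(2x cosh q) dq` -/
theorem kpr_prod (μ ν : ℂ) (x : ℝ) (hx : 0 < x) : KK μ x * KK ν x =
    ∫ q : ℝ, Complex.exp ((μ - ν) * q) * KK (μ + ν) (2 * Real.cosh q * x) := by
  set f : ℝ → ℂ := fun u => Complex.exp (-(x : ℂ) * (Real.cosh u : ℝ) + μ * u) with hf
  set g : ℝ → ℂ := fun u => Complex.exp (-(x : ℂ) * (Real.cosh u : ℝ) + ν * u) with hg
  have hfi : Integrable f := kbd_int μ x hx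
  have hgi : Integrable g := kbd_int ν x hx
  have hfg : Integrable (fun z : ℝ × ℝ => f z.1 * g z.2) (volume.prod volume) :=
    hfi.mul_prod hgi
  have hmp := measurePreserving_prod_add (volume : Measure ℝ) (volume : Measure ℝ)
  have hemb : MeasurableEmbedding (fun z : ℝ × ℝ => (z.1, z.1 + z.2)) :=
    (MeasurableEquiv.shearAddRight ℝ).measurableEmbedding
  have hint : Integrable (fun z : ℝ × ℝ => f z.1 * g (z.1 + z.2)) (volume.prod volume) :=
    (hmp.integrable_comp_emb hemb (g := fun z : ℝ × ℝ => f z.1 * g z.2)).2 hfg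
  have hval : ∫ z : ℝ × ℝ, f z.1 * g (z.1 + z.2) ∂(volume.prod volume) =
      (∫ u, f u) * ∫ u, g u := by
    rw [← integral_prod_mul f g]
    exact hmp.integral_comp hemb (fun z : ℝ × ℝ => f z.1 * g z.2)
  rw [integral_prod_symm _ hint] at hval
  have h1 := Measure.integral_comp_mul_left (fun v : ℝ => ∫ u, f u * g (u + v)) (-2)
  have h2 : |(-2 : ℝ)⁻¹| = 1 / 2 := by
    rw [abs_inv, abs_neg, abs_of_pos (by norm_num : (0 : ℝ) < 2), one_div]
  rw [h2, hval] at h1
  have h3 : ∀ q : ℝ, ∫ u, f u * g (u + -2 * q) =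
      2 * (Complex.exp ((μ - ν) * q) * KK (μ + ν) (2 * Real.cosh q * x)) := by
    intro q
    rw [← integral_add_right_eq_self (fun u => f u * g (u + -2 * q)) q]
    unfold KK
    have e : ∀ p : ℝ, f (p + q) * g (p + q + -2 * q) = Complex.exp ((μ - ν) * q) *
        Complex.exp (-((2 * Real.cosh q * x : ℝ) : ℂ) * (Real.cosh p : ℝ) + (μ + ν) * p) := by
      intro p
      rw [hf, hg]
      simp only
      rw [← Complex.exp_add, ← Complex.exp_add]
      congr 1
      have e1 : p + q + -2 * q = p - q := by ring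
      rw [e1]
      have e2 : ((Real.cosh (p + q) : ℝ) : ℂ) + ((Real.cosh (p - q) : ℝ) : ℂ) =
          ((2 * Real.cosh q * Real.cosh p : ℝ) : ℂ) := by
        rw [← Complex.ofReal_add, kpr_cosh_add]
      have e3 : -(x : ℂ) * ((Real.cosh (p + q) : ℝ) : ℂ) + -(x : ℂ) * ((Real.cosh (p - q) : ℝ) : ℂ) =
          -(x : ℂ) * ((2 * Real.cosh q * Real.cosh p : ℝ) : ℂ) := by
        rw [← mul_add, e2]
      push_cast at e3 ⊢
      linear_combination e3
    simp_rw [e]
    rw [integral_const_mul]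
    ring
  simp_rw [h3] at h1
  rw [integral_const_mul] at h1
  have h4 : KK μ x * KK ν x = (1 / 4) * ((∫ u, f u) * ∫ u, g u) := by
    unfold KK
    ring
  rw [h4]
  have h5 : ((1 / 2 : ℝ) • ((∫ u, f u) * ∫ u, g u) : ℂ) =
      (1 / 2) * ((∫ u, f u) * ∫ u, g u) := by
    rw [Complex.real_smul]
    push_cast
    rfl
  rw [h5] at h1
  linear_combination (-1 / 2 : ℂ) * h1

/-! ## the Mellin transform of the product -/

/-- the integrand on `(0, ∞) × ℝ` -/
noncomputable def kpr_G (μ ν s : ℂ) (z : ℝ × ℝ) : ℂ :=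
  (z.1 : ℂ) ^ (s - 1) * (Complex.exp ((μ - ν) * z.2) * KK (μ + ν) (2 * Real.cosh z.2 * z.1))

theorem kpr_G_meas (μ ν s : ℂ) : Measurable (kpr_G μ ν s) := by
  unfold kpr_G
  have h1 : Measurable (fun z : ℝ × ℝ => (z.1 : ℂ) ^ (s - 1)) :=
    (Complex.measurable_ofReal.comp measurable_fst).pow_const _
  have h2 : Measurable (fun z : ℝ × ℝ => Complex.exp ((μ - ν) * z.2)) :=
    Complex.measurable_exp.comp ((Complex.measurable_ofReal.comp measurable_snd).const_mul _)
  have h3 : Measurable (fun z : ℝ × ℝ => KK (μ + ν) (2 * Real.cosh z.2 * z.1)) :=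
    (kbd_meas (μ + ν)).comp
      (((Real.continuous_cosh.measurable.comp measurable_snd).const_mul 2).mul measurable_fst)
  exact h1.mul (h2.mul h3)

theorem kpr_two_cosh (q : ℝ) : 2 * Real.cosh q = Real.exp (kpr_L q) := by
  rw [kpr_expL, Real.cosh_eq]
  ring

theorem kpr_G_inner (μ ν s : ℂ) (q : ℝ) :
    ∫ x in Ioi (0 : ℝ), kpr_G μ ν s (x, q) =
      mellin (KK (μ + ν)) s * Complex.exp ((μ - ν) * q - s * kpr_L q) := by
  have h2 : 0 < 2 * Real.cosh q := by
    have := Real.cosh_pos q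
    positivity
  have h1 := mellin_comp_mul_left (KK (μ + ν)) s h2
  have h3 : ∫ x in Ioi (0 : ℝ), kpr_G μ ν s (x, q) = Complex.exp ((μ - ν) * q) *
      mellin (fun t => KK (μ + ν) (2 * Real.cosh q * t)) s := by
    unfold mellin kpr_G
    rw [← integral_const_mul]
    refine setIntegral_congr_fun measurableSet_Ioi fun x _ => ?_
    simp only [smul_eq_mul]
    ring
  rw [h3, h1, kpr_two_cosh, kpr_cpow, smul_eq_mul, sub_eq_add_neg ((μ - ν) * (q : ℂ)),
    Complex.exp_add]
  have e : (kpr_L q : ℂ) * -s = -(s * kpr_L q) := by ring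
  rw [e]
  ring

theorem kpr_G_int (μ ν s : ℂ) (h1 : |(μ + ν).re| < s.re) (h2 : |(μ - ν).re| < s.re) :
    Integrable (kpr_G μ ν s) ((volume.restrict (Ioi (0 : ℝ))).prod volume) := by
  have hM := (kpr_mellin_one (μ + ν) s h1).1
  rw [integrable_prod_iff' (kpr_G_meas μ ν s).aestronglyMeasurable]
  have hfac : ∀ q x : ℝ, kpr_G μ ν s (x, q) = Complex.exp ((μ - ν) * q) *
      ((x : ℂ) ^ (s - 1) • KK (μ + ν) (2 * Real.cosh q * x)) := by
    intro q x
    unfold kpr_G
    simp only [smul_eq_mul]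
    ring
  have hpos : ∀ q : ℝ, 0 < 2 * Real.cosh q := fun q => by
    have := Real.cosh_pos q
    positivity
  constructor
  · refine Eventually.of_forall fun q => ?_
    have h3 := (MellinConvergent.comp_mul_left (f := KK (μ + ν)) (s := s) (hpos q)).2 hM
    unfold MellinConvergent at h3
    have h4 := h3.const_mul (Complex.exp ((μ - ν) * q))
    refine h4.congr (Eventually.of_forall fun x => ?_)
    exact (hfac q x).symm
  · have h3 : ∀ q : ℝ, ∫ x in Ioi (0 : ℝ), ‖kpr_G μ ν s (x, q)‖ =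
        (∫ x in Ioi (0 : ℝ), x ^ (s.re - 1) * ‖KK (μ + ν) x‖) *
          Real.exp ((μ - ν).re * q - s.re * kpr_L q) := by
      intro q
      have h4 : ∀ x ∈ Ioi (0 : ℝ), ‖kpr_G μ ν s (x, q)‖ =
          Real.exp ((μ - ν).re * q) * ((2 * Real.cosh q) ^ (1 - s.re) *
            ((fun y : ℝ => y ^ (s.re - 1) * ‖KK (μ + ν) y‖) (2 * Real.cosh q * x))) := by
        intro x hx
        have hx' : 0 < x := hx
        rw [hfac, norm_mul, norm_smul, Complex.norm_cpow_eq_rpow_re_of_pos hx', Complex.norm_exp]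
        have e1 : (s - 1).re = s.re - 1 := by simp
        have e2 : ((μ - ν) * (q : ℂ)).re = (μ - ν).re * q := by simp
        rw [e1, e2]
        simp only
        rw [Real.mul_rpow (hpos q).le hx'.le]
        have e3 : (2 * Real.cosh q) ^ (1 - s.re) * (2 * Real.cosh q) ^ (s.re - 1) = 1 := by
          rw [← Real.rpow_add (hpos q)]
          simp
        calc _ = Real.exp ((μ - ν).re * q) * (((2 * Real.cosh q) ^ (1 - s.re) *
              (2 * Real.cosh q) ^ (s.re - 1)) * (x ^ (s.re - 1) *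
                ‖KK (μ + ν) (2 * Real.cosh q * x)‖)) := by rw [e3, one_mul]
          _ = _ := by ring
      have h5 := integral_comp_mul_left_Ioi (fun y : ℝ => y ^ (s.re - 1) * ‖KK (μ + ν) y‖) 0 (hpos q)
      rw [mul_zero, smul_eq_mul] at h5
      rw [setIntegral_congr_fun measurableSet_Ioi h4, integral_const_mul, integral_const_mul, h5]
      have e4 : (2 * Real.cosh q) ^ (1 - s.re) * (2 * Real.cosh q)⁻¹ =
          Real.exp (-(s.re * kpr_L q)) := by
        rw [← Real.rpow_neg_one (2 * Real.cosh q), ← Real.rpow_add (hpos q), kpr_two_cosh,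
          ← Real.exp_mul]
        congr 1
        ring
      have e5 : Real.exp ((μ - ν).re * q - s.re * kpr_L q) = Real.exp ((μ - ν).re * q) *
          Real.exp (-(s.re * kpr_L q)) := by
        rw [← Real.exp_add, sub_eq_add_neg]
      rw [e5, ← e4]
      ring
    simp_rw [h3]
    exact (kpr_Jr (μ - ν) s h2).const_mul _

theorem kpr_abs (μ ν s : ℂ) (hs : |μ.re| + |ν.re| < s.re) :
    |(μ + ν).re| < s.re ∧ |(μ - ν).re| < s.re := by
  constructor
  · rw [Complex.add_re]
    exact lt_of_le_of_lt (abs_add_le _ _) hs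
  · rw [Complex.sub_re]
    exact lt_of_le_of_lt (abs_sub _ _) hs

theorem kpr_eq (μ ν s : ℂ) {x : ℝ} (hx : x ∈ Ioi (0 : ℝ)) : KK μ x * KK ν x * (x : ℂ) ^ (s - 1) =
    ∫ q : ℝ, kpr_G μ ν s (x, q) := by
  rw [kpr_prod μ ν x hx]
  unfold kpr_G
  simp only
  rw [integral_const_mul]
  ring

theorem kpr_int_pr (μ ν s : ℂ) (hs : |μ.re| + |ν.re| < s.re) :
    IntegrableOn (fun x : ℝ => KK μ x * KK ν x * (x : ℂ) ^ (s - 1)) (Set.Ioi 0) := by
  obtain ⟨h1, h2⟩ := kpr_abs μ ν s hs
  have h3 := (kpr_G_int μ ν s h1 h2).integral_prod_left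
  exact IntegrableOn.congr_fun h3 (fun x hx => (kpr_eq μ ν s hx).symm) measurableSet_Ioi

theorem kpr_mellin_pr (μ ν s : ℂ) (hs : |μ.re| + |ν.re| < s.re) :
    ∫ x in Set.Ioi (0 : ℝ), KK μ x * KK ν x * (x : ℂ) ^ (s - 1) =
      (2 : ℂ) ^ (s - 3) * (Complex.Gamma ((s + μ + ν) / 2) * Complex.Gamma ((s - μ - ν) / 2)) *
        (Complex.Gamma ((s + μ - ν) / 2) * Complex.Gamma ((s - μ + ν) / 2)) / Complex.Gamma s := by
  obtain ⟨h1, h2⟩ := kpr_abs μ ν s hs
  have hs0 : 0 < s.re := lt_of_le_of_lt (abs_nonneg _) h1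
  have hG := kpr_G_int μ ν s h1 h2
  rw [setIntegral_congr_fun measurableSet_Ioi (fun x hx => kpr_eq μ ν s hx),
    integral_integral_swap (f := fun x u => kpr_G μ ν s (x, u)) hG]
  simp_rw [kpr_G_inner μ ν s]
  rw [integral_const_mul, (kpr_mellin_one (μ + ν) s h1).2]
  have hJ1 := (kpr_J (μ + ν) s h1).2
  have hJ2 := (kpr_J (μ - ν) s h2).2
  have hΓ : Complex.Gamma s ≠ 0 := Complex.Gamma_ne_zero_of_re_pos hs0
  have e1 : (s + (μ + ν)) / 2 = (s + μ + ν) / 2 := by ring
  have e2 : (s - (μ + ν)) / 2 = (s - μ - ν) / 2 := by ring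
  have e3 : (s + (μ - ν)) / 2 = (s + μ - ν) / 2 := by ring
  have e4 : (s - (μ - ν)) / 2 = (s - μ + ν) / 2 := by ring
  rw [e1, e2] at hJ1
  rw [e3, e4] at hJ2
  have e5 : (2 : ℂ) ^ (s - 3) = Complex.exp (s * Real.log 2) / 8 := by
    rw [Complex.cpow_sub _ _ two_ne_zero, Complex.cpow_def_of_ne_zero two_ne_zero]
    have e6 : Complex.log 2 = ((Real.log 2 : ℝ) : ℂ) := by
      rw [Complex.ofReal_log two_pos.le]
      norm_num
    rw [e6, mul_comm]
    congr 1
    norm_num
  rw [e5]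
  set A := ∫ p : ℝ, Complex.exp ((μ + ν) * p - s * kpr_L p) with hA
  set B := ∫ p : ℝ, Complex.exp ((μ - ν) * p - s * kpr_L p) with hB
  rw [eq_div_iff hΓ] at hJ1 hJ2
  rw [eq_div_iff hΓ, ← hJ1, ← hJ2]
  ring

/-! ## final names -/

theorem kpr_int (μ ν s : ℂ) (hs : |μ.re| + |ν.re| < s.re) :
    IntegrableOn (fun x : ℝ => KK μ x * KK ν x * (x : ℂ) ^ (s - 1)) (Set.Ioi 0) :=
  kpr_int_pr μ ν s hs

theorem kpr_mellin (μ ν s : ℂ) (hs : |μ.re| + |ν.re| < s.re) :
    ∫ x in Set.Ioi (0 : ℝ), KK μ x * KK ν x * (x : ℂ) ^ (s - 1) =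
      (2 : ℂ) ^ (s - 3) * (Complex.Gamma ((s + μ + ν) / 2) * Complex.Gamma ((s - μ - ν) / 2)) *
        (Complex.Gamma ((s + μ - ν) / 2) * Complex.Gamma ((s - μ + ν) / 2)) / Complex.Gamma s :=
  kpr_mellin_pr μ ν s hs

end Pool.Agent.JOL
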