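import Pool.Agent.Lib_helper45.JO.Defs
import Pool.Agent.Lib_helper19.H3.GR

/-! Block GUP of project JO (helper1). -/

set_option autoImplicit false

namespace Pool.Agent.JOL

open MeasureTheory Filter Topology
open Pool.Agent.JO Pool.Agent.JO.FM

theorem gup_ofReal_pow {t : ℝ} (ht : 0 ≤ t) (r : ℝ) : ((t : ℂ)) ^ (r : ℂ) = ((t ^ r : ℝ) : ℂ) :=
  (Complex.ofReal_cpow ht r).symm

theorem gup_real_int (a c : ℝ) (h0 : 0 < a) (hc0 : 0 < c) (hc1 : c < 1) :
    IntervalIntegrable (fun t : ℝ => t ^ (a - 1) * (1 - t) ^ (-a - 1)) volume 0 c := by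
  refine (intervalIntegral.intervalIntegrable_rpow' (by linarith)).mul_continuousOn ?_
  intro t ht
  rw [Set.uIcc_of_le hc0.le] at ht
  have h1 : (1 : ℝ) - t ≠ 0 := by
    have := ht.2
    intro h
    linarith
  exact ((continuousAt_const.sub continuousAt_id).rpow_const (Or.inl h1)).continuousWithinAt

/-- the total variation -/
theorem gup_real (a c : ℝ) (h0 : 0 < a) (hc0 : 0 < c) (hc1 : c < 1) :
    ∫ t in (0 : ℝ)..c, a * (t ^ (a - 1) * (1 - t) ^ (-a - 1)) = c ^ a * (1 - c) ^ (-a) := by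
  have hcont : ContinuousOn (fun t : ℝ => t ^ a * (1 - t) ^ (-a)) (Set.Icc 0 c) := by
    refine ContinuousOn.mul (Real.continuous_rpow_const h0.le).continuousOn ?_
    intro t ht
    have h1 : (1 : ℝ) - t ≠ 0 := by
      have := ht.2
      intro h
      linarith
    exact ((continuousAt_const.sub continuousAt_id).rpow_const (Or.inl h1)).continuousWithinAt
  have hder : ∀ t ∈ Set.Ioo 0 c, HasDerivAt (fun t : ℝ => t ^ a * (1 - t) ^ (-a))
      (a * (t ^ (a - 1) * (1 - t) ^ (-a - 1))) t := by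
    intro t ht
    have ht0 : 0 < t := ht.1
    have ht1 : 0 < 1 - t := by linarith [ht.2]
    have h1 : HasDerivAt (fun t : ℝ => t ^ a) (a * t ^ (a - 1)) t :=
      Real.hasDerivAt_rpow_const (Or.inl ht0.ne')
    have h2 : HasDerivAt (fun t : ℝ => (1 - t) ^ (-a)) ((-1) * (-a) * (1 - t) ^ (-a - 1)) t :=
      ((hasDerivAt_id' t).const_sub 1).rpow_const (Or.inl ht1.ne')
    refine (h1.mul h2).congr_deriv ?_
    have h3 : (1 - t) ^ (-a) = (1 - t) * (1 - t) ^ (-a - 1) := by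
      rw [Real.rpow_sub_one ht1.ne']
      field_simp
    have h4 : t ^ a = t * t ^ (a - 1) := by
      rw [Real.rpow_sub_one ht0.ne']
      field_simp
    rw [h3, h4]
    ring
  rw [intervalIntegral.integral_eq_sub_of_hasDerivAt_of_le hc0.le hcont hder
    ((gup_real_int a c h0 hc0 hc1).const_mul a)]
  simp [Real.zero_rpow h0.ne']

theorem gup_cpx_int (a b c r : ℝ) (h0 : 0 < a) (hc0 : 0 < c) (hc1 : c < 1) :
    IntervalIntegrable (fun t : ℝ => (t : ℂ) ^ ((a : ℂ) + b * Complex.I - 1) *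
      (((1 - t) ^ r : ℝ) : ℂ)) volume 0 c := by
  refine (intervalIntegral.intervalIntegrable_cpow' (by simp; linarith)).mul_continuousOn ?_
  intro t ht
  rw [Set.uIcc_of_le hc0.le] at ht
  have h1 : (1 : ℝ) - t ≠ 0 := by
    have := ht.2
    intro h
    linarith
  exact (Complex.continuous_ofReal.continuousAt.comp
    ((continuousAt_const.sub continuousAt_id).rpow_const (Or.inl h1))).continuousWithinAt

/-- integration by parts -/
theorem gup_parts (a b c : ℝ) (h0 : 0 < a) (hc0 : 0 < c) (hc1 : c < 1) :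
    (b : ℂ) * Complex.I * ∫ t in (0 : ℝ)..c, (t : ℂ) ^ ((a : ℂ) + b * Complex.I - 1) *
      (((1 - t) ^ (-a) : ℝ) : ℂ) =
    (c : ℂ) ^ ((a : ℂ) + b * Complex.I) * (((1 - c) ^ (-a) : ℝ) : ℂ) -
      a * ∫ t in (0 : ℝ)..c, (t : ℂ) ^ ((a : ℂ) + b * Complex.I - 1) *
        (((1 - t) ^ (-a - 1) : ℝ) : ℂ) := by
  set z : ℂ := (a : ℂ) + b * Complex.I with hz
  have hzre : z.re = a := by simp [hz]
  have hz0 : z ≠ 0 := by
    intro h
    rw [h] at hzre
    simp at hzre
    linarith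
  have hcont : ContinuousOn (fun t : ℝ => (t : ℂ) ^ z * (((1 - t) ^ (-a) : ℝ) : ℂ))
      (Set.Icc 0 c) := by
    refine ContinuousOn.mul ?_ ?_
    · have h1 : Continuous fun t : ℝ => (t : ℂ) ^ z :=
        Complex.continuous_ofReal_cpow_const (by rw [hzre]; exact h0)
      exact h1.continuousOn
    · intro t ht
      have h1 : (1 : ℝ) - t ≠ 0 := by
        have := ht.2
        intro h
        linarith
      exact (Complex.continuous_ofReal.continuousAt.comp
        ((continuousAt_const.sub continuousAt_id).rpow_const (Or.inl h1))).continuousWithinAt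
  have hder : ∀ t ∈ Set.Ioo 0 c, HasDerivAt (fun t : ℝ => (t : ℂ) ^ z *
      (((1 - t) ^ (-a) : ℝ) : ℂ))
      ((b : ℂ) * Complex.I * ((t : ℂ) ^ (z - 1) * (((1 - t) ^ (-a) : ℝ) : ℂ)) +
        a * ((t : ℂ) ^ (z - 1) * (((1 - t) ^ (-a - 1) : ℝ) : ℂ))) t := by
    intro t ht
    have ht0 : 0 < t := ht.1
    have ht1 : 0 < 1 - t := by linarith [ht.2]
    have h1 : HasDerivAt (fun t : ℝ => (t : ℂ) ^ z) (z * (t : ℂ) ^ (z - 1)) t := by
      have h := (hasDerivAt_id' (t : ℂ)).cpow_const (c := z) (Or.inl (by simpa using ht0))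
      simpa using h.comp_ofReal
    have h2 : HasDerivAt (fun t : ℝ => (((1 - t) ^ (-a) : ℝ) : ℂ))
        (((-1) * (-a) * (1 - t) ^ (-a - 1) : ℝ) : ℂ) t :=
      (((hasDerivAt_id' t).const_sub 1).rpow_const (Or.inl ht1.ne')).ofReal_comp
    refine (h1.mul h2).congr_deriv ?_
    have h3 : (((1 - t) ^ (-a) : ℝ) : ℂ) = (1 - t : ℂ) * (((1 - t) ^ (-a - 1) : ℝ) : ℂ) := by
      rw [Real.rpow_sub_one ht1.ne']
      push_cast
      have h5 : (1 : ℂ) - t ≠ 0 := by exact_mod_cast ht1.ne'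
      field_simp
    have h4 : (t : ℂ) ^ z = t * (t : ℂ) ^ (z - 1) := by
      have h5 : (t : ℂ) ≠ 0 := by exact_mod_cast ht0.ne'
      rw [Complex.cpow_sub _ _ h5, Complex.cpow_one]
      field_simp
    rw [h3, h4, hz]
    push_cast
    ring
  have hi1 := gup_cpx_int a b c (-a) h0 hc0 hc1
  have hi2 := gup_cpx_int a b c (-a - 1) h0 hc0 hc1
  have key := intervalIntegral.integral_eq_sub_of_hasDerivAt_of_le hc0.le hcont hder
    ((hi1.const_mul _).add (hi2.const_mul _))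
  rw [intervalIntegral.integral_add (hi1.const_mul _) (hi2.const_mul _),
    intervalIntegral.integral_const_mul, intervalIntegral.integral_const_mul] at key
  simp only [Complex.ofReal_zero, Complex.zero_cpow hz0, zero_mul, sub_zero] at key
  exact eq_sub_of_add_eq key

theorem gup_first (a b c : ℝ) (h0 : 0 < a) (hc0 : 0 < c) (hc1 : c < 1) (hb : 1 ≤ |b|) :
    ‖∫ t in (0 : ℝ)..c, (t : ℂ) ^ ((a : ℂ) + b * Complex.I - 1) *
      (((1 - t) ^ (-a) : ℝ) : ℂ)‖ ≤ 2 * (1 - c) ^ (-a) / |b| := by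
  have hb0 : 0 < |b| := by linarith
  have h1c : 0 < 1 - c := by linarith
  have hca : c ^ a ≤ 1 := Real.rpow_le_one hc0.le hc1.le h0.le
  have h1 := gup_parts a b c h0 hc0 hc1
  have h2 := congrArg norm h1
  rw [norm_mul, norm_mul, Complex.norm_I, mul_one, Complex.norm_real, Real.norm_eq_abs] at h2
  have h3 : ‖(c : ℂ) ^ ((a : ℂ) + b * Complex.I) * (((1 - c) ^ (-a) : ℝ) : ℂ)‖ ≤
      (1 - c) ^ (-a) := by
    rw [norm_mul, Complex.norm_cpow_eq_rpow_re_of_pos hc0, Complex.norm_real,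
      Real.norm_of_nonneg (Real.rpow_nonneg h1c.le _)]
    simp only [Complex.add_re, Complex.ofReal_re, Complex.mul_re, Complex.I_re, mul_zero,
      Complex.ofReal_im, Complex.I_im, mul_one, sub_self, add_zero]
    exact mul_le_of_le_one_left (Real.rpow_nonneg h1c.le _) hca
  have h4 : ‖(a : ℂ) * ∫ t in (0 : ℝ)..c, (t : ℂ) ^ ((a : ℂ) + b * Complex.I - 1) *
        (((1 - t) ^ (-a - 1) : ℝ) : ℂ)‖ ≤ (1 - c) ^ (-a) := by
    rw [← intervalIntegral.integral_const_mul]
    have h5 : ∀ t ∈ Set.Ioc 0 c, ‖(a : ℂ) * ((t : ℂ) ^ ((a : ℂ) + b * Complex.I - 1) *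
        (((1 - t) ^ (-a - 1) : ℝ) : ℂ))‖ ≤ a * (t ^ (a - 1) * (1 - t) ^ (-a - 1)) := by
      intro t ht
      have ht0 : 0 < t := ht.1
      have ht1 : 0 < 1 - t := by linarith [ht.2]
      rw [norm_mul, norm_mul, Complex.norm_cpow_eq_rpow_re_of_pos ht0, Complex.norm_real,
        Complex.norm_real, Real.norm_of_nonneg h0.le,
        Real.norm_of_nonneg (Real.rpow_nonneg ht1.le _)]
      apply le_of_eq
      congr 3
      simp
    have h6 := intervalIntegral.norm_integral_le_of_norm_le hc0.le (ae_of_all _ h5)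
      ((gup_real_int a c h0 hc0 hc1).const_mul a)
    rw [gup_real a c h0 hc0 hc1] at h6
    exact h6.trans (mul_le_of_le_one_left (Real.rpow_nonneg h1c.le _) hca)
  rw [le_div_iff₀ hb0, mul_comm, h2]
  calc ‖(c : ℂ) ^ ((a : ℂ) + b * Complex.I) * (((1 - c) ^ (-a) : ℝ) : ℂ) -
      a * ∫ t in (0 : ℝ)..c, (t : ℂ) ^ ((a : ℂ) + b * Complex.I - 1) *
        (((1 - t) ^ (-a - 1) : ℝ) : ℂ)‖ ≤ (1 - c) ^ (-a) + (1 - c) ^ (-a) :=
        (norm_sub_le _ _).trans (add_le_add h3 h4)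
    _ = 2 * (1 - c) ^ (-a) := by ring

theorem gup_second (a b c : ℝ) (h0 : 0 < a) (h1 : a < 1) (hc0 : 1 / 2 ≤ c) (hc1 : c < 1) :
    ‖∫ t in c..(1 : ℝ), (t : ℂ) ^ ((a : ℂ) + b * Complex.I - 1) *
      (((1 - t) ^ (-a) : ℝ) : ℂ)‖ ≤ 2 * (1 - c) ^ (1 - a) / (1 - a) := by
  have h1c : 0 < 1 - c := by linarith
  have hint : IntervalIntegrable (fun t : ℝ => 2 * (1 - t) ^ (-a)) volume c 1 := by
    have h2 : IntervalIntegrable (fun y : ℝ => y ^ (-a)) volume (1 - c) (1 - 1) :=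
      intervalIntegral.intervalIntegrable_rpow' (by linarith)
    have h3 := h2.comp_sub_left 1
    simp only [sub_sub_cancel] at h3
    exact h3.const_mul 2
  have hval : ∫ t in c..(1 : ℝ), 2 * (1 - t) ^ (-a) = 2 * (1 - c) ^ (1 - a) / (1 - a) := by
    rw [intervalIntegral.integral_const_mul,
      intervalIntegral.integral_comp_sub_left (fun y : ℝ => y ^ (-a)) 1, sub_self,
      integral_rpow (Or.inl (by linarith))]
    have h2 : -a + 1 = 1 - a := by ring
    rw [h2, Real.zero_rpow (by linarith : (1 - a) ≠ 0)]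
    ring
  rw [← hval]
  refine intervalIntegral.norm_integral_le_of_norm_le hc1.le (ae_of_all _ fun t ht => ?_) hint
  have ht0 : 1 / 2 < t := lt_of_le_of_lt hc0 ht.1
  have ht1 : t ≤ 1 := ht.2
  have hr := Real.rpow_nonneg (by linarith : (0 : ℝ) ≤ 1 - t) (-a)
  rw [norm_mul, Complex.norm_cpow_eq_rpow_re_of_pos (by linarith), Complex.norm_real,
    Real.norm_of_nonneg hr]
  refine mul_le_mul_of_nonneg_right ?_ hr
  have h2 : ((a : ℂ) + b * Complex.I - 1).re = a - 1 := by simp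
  rw [h2]
  have h3 : t ^ (a - 1) ≤ (1 / 2 : ℝ) ^ (a - 1) :=
    Real.rpow_le_rpow_of_nonpos (by norm_num) ht0.le (by linarith)
  refine h3.trans ?_
  have h4 : (1 / 2 : ℝ) ^ (a - 1) ≤ (1 / 2 : ℝ) ^ (-1 : ℝ) :=
    Real.rpow_le_rpow_of_exponent_ge (by norm_num) (by norm_num) (by linarith)
  refine h4.trans ?_
  rw [Real.rpow_neg_one]
  norm_num

theorem gup_beta (a : ℝ) (h0 : 0 < a) (h1 : a < 1) : ∃ C : ℝ, 0 ≤ C ∧ ∀ b : ℝ, 1 ≤ |b| →
    ‖Complex.betaIntegral (a + b * Complex.I) (1 - a)‖ ≤ C * |b| ^ (a - 1) := by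
  refine ⟨2 * 2 ^ a + 2 * (1 / 2 : ℝ) ^ (1 - a) / (1 - a), ?_, fun b hb => ?_⟩
  · have : 0 < 1 - a := by linarith
    positivity
  have hb0 : 0 < |b| := by linarith
  set c : ℝ := 1 - 1 / (2 * |b|) with hc
  have hd0 : 0 < 1 / (2 * |b|) := by positivity
  have hd1 : 1 / (2 * |b|) ≤ 1 / 2 := by
    apply one_div_le_one_div_of_le (by norm_num)
    linarith
  have hc0 : 1 / 2 ≤ c := by rw [hc]; linarith
  have hc1 : c < 1 := by rw [hc]; linarith
  have h1c : 1 - c = 1 / (2 * |b|) := by rw [hc]; ring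
  have hbe : Complex.betaIntegral (a + b * Complex.I) (1 - a) =
      ∫ t in (0 : ℝ)..1, (t : ℂ) ^ ((a : ℂ) + b * Complex.I - 1) *
        (((1 - t) ^ (-a) : ℝ) : ℂ) := by
    unfold Complex.betaIntegral
    refine intervalIntegral.integral_congr fun t ht => ?_
    rw [Set.uIcc_of_le zero_le_one] at ht
    have ht1 : 0 ≤ 1 - t := by linarith [ht.2]
    congr 1
    rw [show ((1 : ℂ) - a - 1) = ((-a : ℝ) : ℂ) by push_cast; ring,
      show (1 : ℂ) - t = ((1 - t : ℝ) : ℂ) by push_cast; ring, gup_ofReal_pow ht1]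
  have hu : 0 < ((a : ℂ) + b * Complex.I).re := by simp [h0]
  have hv : 0 < ((1 : ℂ) - a).re := by simp; linarith
  have hconv := Complex.betaIntegral_convergent hu hv
  have hint : IntervalIntegrable (fun t : ℝ => (t : ℂ) ^ ((a : ℂ) + b * Complex.I - 1) *
        (((1 - t) ^ (-a) : ℝ) : ℂ)) volume 0 1 := by
    refine hconv.congr (fun t ht => ?_)
    rw [Set.uIoc_of_le zero_le_one] at ht
    have ht1 : 0 ≤ 1 - t := by linarith [ht.2]
    congr 1
    rw [show ((1 : ℂ) - a - 1) = ((-a : ℝ) : ℂ) by push_cast; ring,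
      show (1 : ℂ) - t = ((1 - t : ℝ) : ℂ) by push_cast; ring, gup_ofReal_pow ht1]
  have hi1 : IntervalIntegrable (fun t : ℝ => (t : ℂ) ^ ((a : ℂ) + b * Complex.I - 1) *
        (((1 - t) ^ (-a) : ℝ) : ℂ)) volume 0 c :=
    hint.mono_set (by
      rw [Set.uIcc_of_le (by linarith), Set.uIcc_of_le zero_le_one]
      exact Set.Icc_subset_Icc_right hc1.le)
  have hi2 : IntervalIntegrable (fun t : ℝ => (t : ℂ) ^ ((a : ℂ) + b * Complex.I - 1) *
        (((1 - t) ^ (-a) : ℝ) : ℂ)) volume c 1 :=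
    hint.mono_set (by
      rw [Set.uIcc_of_le hc1.le, Set.uIcc_of_le zero_le_one]
      exact Set.Icc_subset_Icc_left (by linarith))
  rw [hbe, ← intervalIntegral.integral_add_adjacent_intervals hi1 hi2]
  have e1 := gup_first a b c h0 (by linarith) hc1 hb
  have e2 := gup_second a b c h0 h1 hc0 hc1
  rw [h1c] at e1 e2
  have e3 : (1 / (2 * |b|)) ^ (-a) = 2 ^ a * |b| ^ a := by
    rw [one_div, Real.inv_rpow (by positivity), Real.rpow_neg (by positivity), inv_inv,
      Real.mul_rpow (by norm_num) hb0.le]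
  have e4 : (1 / (2 * |b|)) ^ (1 - a) = (1 / 2) ^ (1 - a) * |b| ^ (a - 1) := by
    rw [show (1 : ℝ) / (2 * |b|) = (1 / 2) * |b|⁻¹ by field_simp,
      Real.mul_rpow (by norm_num) (by positivity), Real.inv_rpow hb0.le,
      ← Real.rpow_neg hb0.le, neg_sub]
  rw [e3] at e1
  rw [e4] at e2
  refine (norm_add_le _ _).trans ((add_le_add e1 e2).trans (le_of_eq ?_))
  rw [Real.rpow_sub_one hb0.ne']
  ring

theorem gup_one (b : ℝ) (hb : 1 ≤ |b|) : ‖Complex.Gamma (1 + b * Complex.I)‖ ≤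
    4 * |b| ^ (1 / 2 : ℝ) * Real.exp (-(Real.pi / 2 * |b|)) := by
  have hb0 : 0 < |b| := by linarith
  have hbne : b ≠ 0 := abs_pos.1 hb0
  have h1 := Pool.Agent.H3.norm_Gamma_one_pr b hbne
  have hpi := Real.pi_gt_three
  have hpi4 := Real.pi_le_four
  have h2 : Real.pi * b / Real.sinh (Real.pi * b) = Real.pi * |b| / Real.sinh (Real.pi * |b|) := by
    rcases abs_cases b with ⟨h, _⟩ | ⟨h, _⟩
    · rw [h]
    · rw [h]
      have : Real.pi * -b = -(Real.pi * b) := by ring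
      rw [this, Real.sinh_neg, neg_div_neg_eq]
  rw [h2] at h1
  have h3 : Real.exp (Real.pi * |b|) / 4 ≤ Real.sinh (Real.pi * |b|) := by
    rw [Real.sinh_eq]
    have h4 : Real.exp (-(Real.pi * |b|)) ≤ 1 := by
      apply Real.exp_le_one_iff.2
      have : 0 ≤ Real.pi * |b| := by positivity
      linarith
    have h5 : 2 ≤ Real.exp (Real.pi * |b|) := by
      have h6 : Real.pi * |b| + 1 ≤ Real.exp (Real.pi * |b|) := Real.add_one_le_exp _
      have h7 : 3 * 1 ≤ Real.pi * |b| := mul_le_mul hpi.le hb zero_le_one (by positivity)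
      linarith
    linarith
  have hs : 0 < Real.exp (Real.pi * |b|) / 4 := by positivity
  have h4 : ‖Complex.Gamma (1 + b * Complex.I)‖ ^ 2 ≤
      (4 * |b| ^ (1 / 2 : ℝ) * Real.exp (-(Real.pi / 2 * |b|))) ^ 2 := by
    rw [h1]
    calc Real.pi * |b| / Real.sinh (Real.pi * |b|) ≤
        Real.pi * |b| / (Real.exp (Real.pi * |b|) / 4) :=
          div_le_div_of_nonneg_left (by positivity) hs h3
      _ = 4 * Real.pi * |b| * Real.exp (-(Real.pi * |b|)) := by
          rw [Real.exp_neg]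
          field_simp
      _ ≤ 16 * |b| * Real.exp (-(Real.pi * |b|)) := by
          refine mul_le_mul_of_nonneg_right ?_ (Real.exp_pos _).le
          refine mul_le_mul_of_nonneg_right ?_ hb0.le
          linarith
      _ = (4 * |b| ^ (1 / 2 : ℝ) * Real.exp (-(Real.pi / 2 * |b|))) ^ 2 := by
          rw [mul_pow, mul_pow, ← Real.rpow_natCast (|b| ^ (1 / 2 : ℝ)) 2, ← Real.rpow_mul hb0.le,
            ← Real.exp_nat_mul]
          norm_num
          left
          ring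
  exact (pow_le_pow_iff_left₀ (norm_nonneg _) (by positivity) two_ne_zero).1 h4

theorem gup_mid (a : ℝ) (h1 : 0 < a) (h2 : a ≤ 1) : ∃ C : ℝ, 0 ≤ C ∧ ∀ b : ℝ, 1 ≤ |b| →
    ‖Complex.Gamma (a + b * Complex.I)‖ ≤
      C * |b| ^ (a - 1 / 2) * Real.exp (-(Real.pi / 2 * |b|)) := by
  rcases h2.lt_or_eq with h2 | h2
  · obtain ⟨C, hC0, hC⟩ := gup_beta a h1 h2
    have hg : 0 < Real.Gamma (1 - a) := Real.Gamma_pos_of_pos (by linarith)
    refine ⟨4 * C / Real.Gamma (1 - a), by positivity, fun b hb => ?_⟩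
    have hb0 : 0 < |b| := by linarith
    have hu : 0 < ((a : ℂ) + b * Complex.I).re := by simp [h1]
    have hv : 0 < ((1 : ℂ) - a).re := by simp; linarith
    have h3 := Complex.Gamma_mul_Gamma_eq_betaIntegral hu hv
    rw [show (a : ℂ) + b * Complex.I + (1 - a) = 1 + b * Complex.I by ring] at h3
    have h4 : Complex.Gamma (1 - a) = ((Real.Gamma (1 - a) : ℝ) : ℂ) := by
      rw [← Complex.Gamma_ofReal]
      push_cast
      rfl
    have h5 := congrArg norm h3
    rw [norm_mul, norm_mul, h4, Complex.norm_real, Real.norm_of_nonneg hg.le] at h5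
    have h6 := gup_one b hb
    have h7 := hC b hb
    have h8 : ‖Complex.Gamma (a + b * Complex.I)‖ = ‖Complex.Gamma (1 + b * Complex.I)‖ *
        ‖Complex.betaIntegral (a + b * Complex.I) (1 - a)‖ / Real.Gamma (1 - a) := by
      rw [← h5]
      field_simp
    rw [h8]
    calc ‖Complex.Gamma (1 + b * Complex.I)‖ *
        ‖Complex.betaIntegral (a + b * Complex.I) (1 - a)‖ / Real.Gamma (1 - a)
        ≤ (4 * |b| ^ (1 / 2 : ℝ) * Real.exp (-(Real.pi / 2 * |b|))) * (C * |b| ^ (a - 1)) /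
          Real.Gamma (1 - a) := by
          apply div_le_div_of_nonneg_right _ hg.le
          exact mul_le_mul h6 h7 (norm_nonneg _) (by positivity)
      _ = 4 * C / Real.Gamma (1 - a) * |b| ^ (a - 1 / 2) * Real.exp (-(Real.pi / 2 * |b|)) := by
          have h9 : |b| ^ (a - 1 / 2) = |b| ^ (1 / 2 : ℝ) * |b| ^ (a - 1) := by
            rw [← Real.rpow_add hb0]
            congr 1
            ring
          rw [h9]
          ring
  · subst h2
    refine ⟨4, by norm_num, fun b hb => ?_⟩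
    have h3 := gup_one b hb
    norm_num at h3 ⊢
    exact h3

theorem gup_upper_pr (a : ℝ) (h1 : -1 < a) (h2 : a ≤ 1) : ∃ C : ℝ, 0 ≤ C ∧ ∀ b : ℝ, 1 ≤ |b| →
    ‖Complex.Gamma (a + b * Complex.I)‖ ≤
      C * |b| ^ (a - 1 / 2) * Real.exp (-(Real.pi / 2 * |b|)) := by
  rcases lt_or_ge 0 a with h0 | h0
  · exact gup_mid a h0 h2
  · obtain ⟨C, hC0, hC⟩ := gup_mid (a + 1) (by linarith) (by linarith)
    refine ⟨C, hC0, fun b hb => ?_⟩
    have hb0 : 0 < |b| := by linarith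
    have hbne : b ≠ 0 := abs_pos.1 hb0
    have hz : (a : ℂ) + b * Complex.I ≠ 0 := by
      intro h
      have := congrArg Complex.im h
      simp at this
      exact hbne this
    have h3 := Complex.Gamma_add_one _ hz
    have h4 : (a : ℂ) + b * Complex.I + 1 = ((a + 1 : ℝ) : ℂ) + b * Complex.I := by
      push_cast
      ring
    rw [h4] at h3
    have h5 := congrArg norm h3
    rw [norm_mul] at h5
    have h6 := hC b hb
    rw [h5] at h6
    have h7 : |b| ≤ ‖(a : ℂ) + b * Complex.I‖ := by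
      have := Complex.abs_im_le_norm ((a : ℂ) + b * Complex.I)
      simpa using this
    have h8 : |b| * ‖Complex.Gamma (a + b * Complex.I)‖ ≤
        C * |b| ^ (a + 1 - 1 / 2) * Real.exp (-(Real.pi / 2 * |b|)) :=
      (mul_le_mul_of_nonneg_right h7 (norm_nonneg _)).trans h6
    have h9 : |b| ^ (a + 1 - 1 / 2) = |b| * |b| ^ (a - 1 / 2) := by
      rw [show a + 1 - 1 / 2 = 1 + (a - 1 / 2) by ring, Real.rpow_add hb0, Real.rpow_one]
    rw [h9] at h8
    have h10 : |b| * ‖Complex.Gamma (a + b * Complex.I)‖ ≤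
        |b| * (C * |b| ^ (a - 1 / 2) * Real.exp (-(Real.pi / 2 * |b|))) := by
      calc |b| * ‖Complex.Gamma (a + b * Complex.I)‖
          ≤ C * (|b| * |b| ^ (a - 1 / 2)) * Real.exp (-(Real.pi / 2 * |b|)) := h8
        _ = _ := by ring
    exact le_of_mul_le_mul_left h10 hb0

/-! ## final names -/

theorem gup_upper (a : ℝ) (h1 : -1 < a) (h2 : a ≤ 1) : ∃ C : ℝ, 0 ≤ C ∧ ∀ b : ℝ, 1 ≤ |b| →
    ‖Complex.Gamma (a + b * Complex.I)‖ ≤
      C * |b| ^ (a - 1 / 2) * Real.exp (-(Real.pi / 2 * |b|)) :=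
  gup_upper_pr a h1 h2

end Pool.Agent.JOL
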