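import Pool.Agent.Lib_helper45.JO.Defs
import Pool.Agent.Lib_helper32.JO.Stmt

/-!
# Project JO, part L3, block HME: a rectangle in the upper half plane
-/

set_option autoImplicit false

namespace Pool.Agent.JOL

open MeasureTheory Filter Topology
open Pool.Agent.JO Pool.Agent.JO.FM
open scoped ComplexConjugate ENNReal ContDiff

/-- the rectangle -/
def hme_R (δ K : ℝ) : Set ℂ :=
  {z | z.im ∈ Set.Icc (1 : ℝ) (1 + δ) ∧ 3 / 4 * K ≤ |z.re| ∧ |z.re| ≤ 29 / 10 * K}

theorem hme_meas (δ K : ℝ) : MeasurableSet (hme_R δ K) := by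
  have h1 : MeasurableSet {z : ℂ | z.im ∈ Set.Icc (1 : ℝ) (1 + δ)} :=
    Complex.measurable_im measurableSet_Icc
  have h2 : MeasurableSet {z : ℂ | 3 / 4 * K ≤ |z.re|} :=
    measurableSet_le measurable_const (Complex.measurable_re.abs)
  have h3 : MeasurableSet {z : ℂ | |z.re| ≤ 29 / 10 * K} :=
    measurableSet_le (Complex.measurable_re.abs) measurable_const
  exact h1.inter (h2.inter h3)

theorem hme_sub (δ K : ℝ) (hδ1 : δ ≤ 1 / 10) (hK : 4 ≤ K) (w : UpperHalfPlane)
    (hw : (w : ℂ) ∈ hme_R δ K) : w ∈ Reg K := by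
  obtain ⟨⟨h1, h2⟩, h3, h4⟩ := hw
  have hv : w.im = (w : ℂ).im := rfl
  have hd : Real.cosh (dist UpperHalfPlane.I w) =
      ((w : ℂ).re ^ 2 + (w : ℂ).im ^ 2 + 1) / (2 * (w : ℂ).im) := by
    rw [UpperHalfPlane.cosh_dist]
    have e1 : dist ((UpperHalfPlane.I : UpperHalfPlane) : ℂ) (w : ℂ) ^ 2 =
        (w : ℂ).re ^ 2 + ((w : ℂ).im - 1) ^ 2 := by
      rw [dist_comm, Complex.dist_eq, ← Complex.normSq_eq_norm_sq, Complex.normSq_apply]
      have e2 : ((w : ℂ) - ((UpperHalfPlane.I : UpperHalfPlane) : ℂ)).re = (w : ℂ).re := by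
        rw [Complex.sub_re, UpperHalfPlane.coe_I, Complex.I_re, sub_zero]
      have e3 : ((w : ℂ) - ((UpperHalfPlane.I : UpperHalfPlane) : ℂ)).im = (w : ℂ).im - 1 := by
        rw [Complex.sub_im, UpperHalfPlane.coe_I, Complex.I_im]
      rw [e2, e3]
      ring
    rw [e1, UpperHalfPlane.I_im, hv]
    have h5 : (0 : ℝ) < (w : ℂ).im := by linarith
    field_simp
    ring
  have h5 : (0 : ℝ) < 2 * (w : ℂ).im := by linarith
  have h6 : (w : ℂ).re ^ 2 = |(w : ℂ).re| ^ 2 := (sq_abs _).symm
  have h7 : (3 / 4 * K) ^ 2 ≤ |(w : ℂ).re| ^ 2 := pow_le_pow_left₀ (by linarith) h3 2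
  have h8 : |(w : ℂ).re| ^ 2 ≤ (29 / 10 * K) ^ 2 := pow_le_pow_left₀ (abs_nonneg _) h4 2
  constructor
  · rw [hd, le_div_iff₀ h5, h6]
    nlinarith
  · rw [hd, div_le_iff₀ h5, h6]
    nlinarith

theorem hme_region_pr (δ K : ℝ) (hδ : 0 < δ) (hδ1 : δ ≤ 1 / 10) (hK : 4 ≤ K)
    (f : UpperHalfPlane → ℝ≥0∞) (hf : Measurable f) :
    ∫⁻ v in Set.Icc (1 : ℝ) (1 + δ), ∫⁻ x in {x : ℝ | 3 / 4 * K ≤ |x| ∧ |x| ≤ 29 / 10 * K},
      f (pz x v) ≤ 2 * ∫⁻ w in Reg K, f w := by
  have hemb := UpperHalfPlane.measurableEmbedding_coe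
  let g : ℂ → ℝ≥0∞ := Function.extend UpperHalfPlane.coe f 0
  have hg : Measurable g := hemb.measurable_extend hf measurable_zero
  let G : ℂ → ℝ≥0∞ := (hme_R δ K).indicator g
  have hG : Measurable G := hg.indicator (hme_meas δ K)
  have hpz : ∀ x v : ℝ, 0 < v → ((pz x v : UpperHalfPlane) : ℂ) = (x : ℂ) + v * Complex.I := by
    intro x v hv
    rw [pz]
    refine UpperHalfPlane.ofComplex_apply_of_im_pos ?_ ▸ rfl
    simpa using hv
  -- the left side is the integral of `G`
  have hA : MeasurableSet {x : ℝ | 3 / 4 * K ≤ |x| ∧ |x| ≤ 29 / 10 * K} :=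
    (measurableSet_le measurable_const measurable_norm).inter
      (measurableSet_le measurable_norm measurable_const)
  have e1 : ∫⁻ v in Set.Icc (1 : ℝ) (1 + δ),
      ∫⁻ x in {x : ℝ | 3 / 4 * K ≤ |x| ∧ |x| ≤ 29 / 10 * K}, f (pz x v) =
      ∫⁻ v : ℝ, ∫⁻ x : ℝ, G ((x : ℂ) + v * Complex.I) := by
    rw [← lintegral_indicator measurableSet_Icc]
    refine lintegral_congr fun v => ?_
    by_cases hv : v ∈ Set.Icc (1 : ℝ) (1 + δ)
    · rw [Set.indicator_of_mem hv, ← lintegral_indicator hA]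
      refine lintegral_congr fun x => ?_
      have hre : ((x : ℂ) + v * Complex.I).re = x := by simp
      have him : ((x : ℂ) + v * Complex.I).im = v := by simp
      have hv0 : 0 < v := by linarith [hv.1]
      by_cases hx : x ∈ {x : ℝ | 3 / 4 * K ≤ |x| ∧ |x| ≤ 29 / 10 * K}
      · rw [Set.indicator_of_mem hx]
        have hmem : (x : ℂ) + v * Complex.I ∈ hme_R δ K := by
          refine ⟨?_, ?_⟩
          · rw [him]; exact hv
          · rw [hre]; exact hx
        show f (pz x v) = (hme_R δ K).indicator g ((x : ℂ) + v * Complex.I)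
        rw [Set.indicator_of_mem hmem, ← hpz x v hv0]
        exact (hemb.injective.extend_apply f 0 (pz x v)).symm
      · rw [Set.indicator_of_notMem hx]
        have hmem : (x : ℂ) + v * Complex.I ∉ hme_R δ K := by
          intro h
          have h2 := h.2
          rw [hre] at h2
          exact hx h2
        show 0 = (hme_R δ K).indicator g ((x : ℂ) + v * Complex.I)
        rw [Set.indicator_of_notMem hmem]
    · rw [Set.indicator_of_notMem hv]
      symm
      rw [lintegral_eq_zero_iff' ]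
      · refine Eventually.of_forall fun x => ?_
        have him : ((x : ℂ) + v * Complex.I).im = v := by simp
        show (hme_R δ K).indicator g ((x : ℂ) + v * Complex.I) = 0
        rw [Set.indicator_of_notMem]
        intro h
        have h1 := h.1
        rw [him] at h1
        exact hv h1
      · exact (hG.comp (by fun_prop)).aemeasurable
  have e2 : ∫⁻ v : ℝ, ∫⁻ x : ℝ, G ((x : ℂ) + v * Complex.I) = ∫⁻ z : ℂ, G z := by
    rw [← (Complex.volume_preserving_equiv_real_prod.symm).lintegral_comp hG,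
      Measure.volume_eq_prod, lintegral_prod_symm]
    · refine lintegral_congr fun v => lintegral_congr fun x => ?_
      congr 1
      apply Complex.ext <;> simp [Complex.measurableEquivRealProd]
    · exact (hG.comp (Complex.measurableEquivRealProd.symm.measurable)).aemeasurable
  have e3 : ∫⁻ z : ℂ, G z = ∫⁻ w : UpperHalfPlane, G w ∂(volume.comap UpperHalfPlane.coe) := by
    rw [← hemb.lintegral_map, hemb.map_comap]
    symm
    refine setLIntegral_eq_of_support_subset ?_
    intro z hz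
    by_contra h
    apply hz
    show (hme_R δ K).indicator g z = 0
    by_cases hz' : z ∈ hme_R δ K
    · exfalso
      have h0 : 0 < z.im := by linarith [hz'.1.1]
      exact h ⟨⟨z, h0⟩, rfl⟩
    · exact Set.indicator_of_notMem hz' _
  have e4 : ∫⁻ w : UpperHalfPlane, G w ∂(volume.comap UpperHalfPlane.coe) ≤
      2 * ∫⁻ w in UpperHalfPlane.coe ⁻¹' hme_R δ K, f w := by
    have hR : MeasurableSet (UpperHalfPlane.coe ⁻¹' hme_R δ K) :=
      UpperHalfPlane.measurable_coe (hme_meas δ K)
    have hden : Measurable fun z : UpperHalfPlane =>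
        (((1 / NNReal.mk z.im z.im_pos.le : NNReal) ^ 2 : NNReal) : ℝ≥0∞) := by
      have h1 : Measurable fun z : UpperHalfPlane => (NNReal.mk z.im z.im_pos.le : NNReal) :=
        (UpperHalfPlane.continuous_im.measurable).subtype_mk
      exact ((h1.const_div 1).pow_const 2).coe_nnreal_ennreal
    rw [← lintegral_indicator hR, UpperHalfPlane.volume_def,
      lintegral_withDensity_eq_lintegral_mul _ _ (hf.indicator hR), ← lintegral_const_mul]
    · refine lintegral_mono fun w => ?_
      show (hme_R δ K).indicator g (w : ℂ) ≤ _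
      by_cases hw : (w : ℂ) ∈ hme_R δ K
      · rw [Set.indicator_of_mem hw]
        have h1 : g (w : ℂ) = f w := hemb.injective.extend_apply f 0 w
        rw [h1, Pi.mul_apply, Set.indicator_of_mem (show w ∈ UpperHalfPlane.coe ⁻¹' hme_R δ K from hw),
          ← mul_assoc]
        refine le_mul_of_one_le_left zero_le ?_
        have h2 : w.im ≤ 11 / 10 := by
          have := hw.1.2
          have e : (w : ℂ).im = w.im := rfl
          rw [e] at this
          linarith
        have h3 : (1 : NNReal) ≤ 2 * (1 / NNReal.mk w.im w.im_pos.le) ^ 2 := by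
          rw [← NNReal.coe_le_coe]
          push_cast
          have h4 := w.im_pos
          show (1 : ℝ) ≤ 2 * (1 / w.im) ^ 2
          rw [div_pow, one_pow, mul_one_div, le_div_iff₀ (by positivity)]
          nlinarith
        exact_mod_cast h3
      · rw [Set.indicator_of_notMem hw]
        exact zero_le
    · exact hden.mul (hf.indicator hR)
    · exact hden
  rw [e1, e2, e3]
  refine e4.trans (mul_le_mul_right ?_ _)
  exact lintegral_mono_set fun w hw => hme_sub δ K hδ1 hK w hw

/-! ## final names -/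

theorem hme_region (δ K : ℝ) (hδ : 0 < δ) (hδ1 : δ ≤ 1 / 10) (hK : 4 ≤ K)
    (f : UpperHalfPlane → ℝ≥0∞) (hf : Measurable f) :
    ∫⁻ v in Set.Icc (1 : ℝ) (1 + δ), ∫⁻ x in {x : ℝ | 3 / 4 * K ≤ |x| ∧ |x| ≤ 29 / 10 * K},
      f (pz x v) ≤ 2 * ∫⁻ w in Reg K, f w :=
  hme_region_pr δ K hδ hδ1 hK f hf

end Pool.Agent.JOL
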