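import Pool.Agent.Lib_helper45.JO.Defs

/-! # Project JO, part L3, block NSP: non-stationary phase -/

set_option autoImplicit false

namespace Pool.Agent.JOL

open MeasureTheory Filter Topology
open Pool.Agent.JO Pool.Agent.JO.FM
open scoped ComplexConjugate ENNReal ContDiff

noncomputable def nspD (κ x y : ℝ) : ℝ := κ + 2 * Real.pi * x * y

noncomputable def nspQ (κ x y : ℝ) : ℝ := (nspD κ x y)⁻¹

noncomputable def nspE (κ x y : ℝ) : ℂ :=
  Complex.exp (-(Complex.I * ((κ * Real.log y + 2 * Real.pi * x * y : ℝ) : ℂ)))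

noncomputable def nspF (G : ℝ → ℂ) (M : ℕ) (κ x y : ℝ) : ℂ :=
  G y * ((nspQ κ x y : ℝ) : ℂ) ^ M * nspE κ x y

noncomputable def nspJ (G : ℝ → ℂ) (M : ℕ) (κ x : ℝ) : ℂ :=
  ∫ y in (3 / 20 : ℝ)..(9 / 50), nspF G M κ x y

structure NspOK (K κ x : ℝ) : Prop where
  pos : 0 < K
  lo : K ≤ κ
  up : κ ≤ 2 * K
  x : -(3 / 4 * K) ≤ x ∨ x ≤ -(29 / 10 * K)

theorem nsp_low {K κ x : ℝ} (h : NspOK K κ x) {y : ℝ} (hy : y ∈ Set.Icc (3 / 20 : ℝ) (9 / 50)) :
    2 / 25 * (K + |x|) ≤ |nspD κ x y| := by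
  obtain ⟨h0, h1, h2, h3⟩ := h
  obtain ⟨hy1, hy2⟩ := hy
  have p1 := Real.pi_gt_d2
  have p2 := Real.pi_lt_d2
  obtain ⟨P, hP⟩ : ∃ P, P = Real.pi * y := ⟨_, rfl⟩
  have hP1 : 471 / 1000 ≤ P := by rw [hP]; nlinarith
  have hP2 : P ≤ 567 / 1000 := by rw [hP]; nlinarith
  have hD : nspD κ x y = κ + 2 * (x * P) := by rw [nspD, hP]; ring
  rw [hD]
  rcases h3 with h3 | h3
  · rcases le_or_gt 0 x with h4 | h4
    · rw [abs_of_nonneg h4]
      have h5 : 471 / 1000 * x ≤ x * P := by nlinarith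
      exact le_trans (by linarith) (le_abs_self _)
    · rw [abs_of_neg h4]
      have h5 : 567 / 1000 * x ≤ x * P := by nlinarith
      exact le_trans (by linarith) (le_abs_self _)
  · have h4 : x < 0 := by linarith
    rw [abs_of_neg h4]
    have h5 : x * P ≤ 471 / 1000 * x := by nlinarith
    exact le_trans (by linarith) (neg_le_abs _)

theorem nsp_lam {K κ x : ℝ} (h : NspOK K κ x) : 0 < K + |x| := by
  have := h.pos
  positivity

theorem nsp_ne {K κ x : ℝ} (h : NspOK K κ x) {y : ℝ} (hy : y ∈ Set.Icc (3 / 20 : ℝ) (9 / 50)) :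
    nspD κ x y ≠ 0 := by
  have h1 := nsp_low h hy
  have h2 := nsp_lam h
  intro h3
  rw [h3, abs_zero] at h1
  linarith

theorem nsp_qle {K κ x : ℝ} (h : NspOK K κ x) {y : ℝ} (hy : y ∈ Set.Icc (3 / 20 : ℝ) (9 / 50)) :
    |nspQ κ x y| ≤ 25 / 2 / (K + |x|) := by
  have h1 := nsp_low h hy
  have h2 := nsp_lam h
  rw [nspQ, abs_inv]
  calc |nspD κ x y|⁻¹ ≤ (2 / 25 * (K + |x|))⁻¹ := by
        gcongr
    _ = 25 / 2 / (K + |x|) := by
        field_simp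

theorem nsp_Enorm (κ x y : ℝ) : ‖nspE κ x y‖ = 1 := by
  rw [nspE, Complex.norm_exp]
  simp

theorem nsp_uIcc : Set.uIcc (3 / 20 : ℝ) (9 / 50) = Set.Icc (3 / 20 : ℝ) (9 / 50) :=
  Set.uIcc_of_le (by norm_num)

theorem nsp_cts {K κ x : ℝ} (h : NspOK K κ x) {G : ℝ → ℂ} (hG : Continuous G) (M : ℕ) :
    ContinuousOn (nspF G M κ x) (Set.Icc (3 / 20 : ℝ) (9 / 50)) := by
  have h1 : ContinuousOn (fun y => ((nspQ κ x y : ℝ) : ℂ)) (Set.Icc (3 / 20 : ℝ) (9 / 50)) := by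
    refine Complex.continuous_ofReal.comp_continuousOn ?_
    refine ContinuousOn.inv₀ ?_ fun y hy => nsp_ne h hy
    unfold nspD
    fun_prop
  have h2 : ContinuousOn (fun y => nspE κ x y) (Set.Icc (3 / 20 : ℝ) (9 / 50)) := by
    refine Complex.continuous_exp.comp_continuousOn ?_
    refine ContinuousOn.neg (ContinuousOn.mul continuousOn_const ?_)
    refine Complex.continuous_ofReal.comp_continuousOn ?_
    have h3 : ContinuousOn Real.log (Set.Icc (3 / 20 : ℝ) (9 / 50)) :=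
      Real.continuousOn_log.mono fun y hy => by
        have := hy.1
        have h4 : (0 : ℝ) < y := by linarith
        exact h4.ne'
    fun_prop
  exact (hG.continuousOn.mul (h1.pow M)).mul h2

theorem nsp_ii {K κ x : ℝ} (h : NspOK K κ x) {G : ℝ → ℂ} (hG : Continuous G) (M : ℕ) :
    IntervalIntegrable (nspF G M κ x) volume (3 / 20 : ℝ) (9 / 50) := by
  refine ContinuousOn.intervalIntegrable ?_
  rw [nsp_uIcc]
  exact nsp_cts h hG M

theorem nsp_end {G : ℝ → ℂ} (hG : Continuous G)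
    (hs : ∀ y, y ∉ Set.Icc (3 / 20 : ℝ) (9 / 50) → G y = 0) :
    G (3 / 20) = 0 ∧ G (9 / 50) = 0 := by
  have hc : IsClosed {y | G y = 0} := isClosed_eq hG continuous_const
  constructor
  · have h1 : Set.Iio (3 / 20 : ℝ) ⊆ {y | G y = 0} := fun y hy =>
      hs y fun h => absurd h.1 (not_le.2 hy)
    have h2 := hc.closure_subset_iff.2 h1
    rw [closure_Iio] at h2
    exact h2 (Set.mem_Iic.2 le_rfl)
  · have h1 : Set.Ioi (9 / 50 : ℝ) ⊆ {y | G y = 0} := fun y hy =>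
      hs y fun h => absurd h.2 (not_le.2 hy)
    have h2 := hc.closure_subset_iff.2 h1
    rw [closure_Ioi] at h2
    exact h2 (Set.mem_Ici.2 le_rfl)

/-- the new amplitude -/
noncomputable def nspG (G : ℝ → ℂ) (M : ℕ) (y : ℝ) : ℂ := (y : ℂ) * deriv G y - M * G y

theorem nsp_G_smooth {G : ℝ → ℂ} (hG : ContDiff ℝ ∞ G) (M : ℕ) : ContDiff ℝ ∞ (nspG G M) := by
  have h1 : ContDiff ℝ ∞ (deriv G) := (contDiff_infty_iff_deriv.1 hG).2
  have h2 : ContDiff ℝ ∞ (fun y : ℝ => (y : ℂ)) := Complex.ofRealCLM.contDiff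
  exact (h2.mul h1).sub (contDiff_const.mul hG)

theorem nsp_G_supp {G : ℝ → ℂ} (hs : ∀ y, y ∉ Set.Icc (3 / 20 : ℝ) (9 / 50) → G y = 0) (M : ℕ) :
    ∀ y, y ∉ Set.Icc (3 / 20 : ℝ) (9 / 50) → nspG G M y = 0 := by
  intro y hy
  have h1 : G =ᶠ[𝓝 y] fun _ => 0 := by
    filter_upwards [isClosed_Icc.isOpen_compl.mem_nhds hy] with z hz
    exact hs z hz
  rw [nspG, h1.deriv_eq, hs y hy]
  simp

theorem nsp_deriv {K κ x : ℝ} (h : NspOK K κ x) {G : ℝ → ℂ} (hG : Differentiable ℝ G) (M : ℕ)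
    {y : ℝ} (hy : y ∈ Set.Icc (3 / 20 : ℝ) (9 / 50)) :
    HasDerivAt (fun y : ℝ => G y * (y : ℂ) * ((nspQ κ x y : ℝ) : ℂ) ^ (M + 1) * nspE κ x y)
      (nspF (nspG G M) (M + 1) κ x y + ((M : ℂ) + 1) * κ * nspF G (M + 2) κ x y -
        Complex.I * nspF G M κ x y) y := by
  have hy0 : (0 : ℝ) < y := by linarith [hy.1]
  have hne := nsp_ne h hy
  have h1 : HasDerivAt (nspD κ x) (2 * Real.pi * x) y := by
    unfold nspD
    have := ((hasDerivAt_id y).const_mul (2 * Real.pi * x)).const_add κ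
    exact this.congr_deriv (by ring)
  have h2 : HasDerivAt (nspQ κ x) (-(2 * Real.pi * x) / (nspD κ x y) ^ 2) y := h1.inv hne
  have h3 : HasDerivAt (fun y : ℝ => ((nspQ κ x y : ℝ) : ℂ))
      ((-(2 * Real.pi * x) / (nspD κ x y) ^ 2 : ℝ) : ℂ) y := h2.ofReal_comp
  have h4 := h3.fun_pow (M + 1)
  have h5 : HasDerivAt (fun y : ℝ => (y : ℂ)) 1 y := Complex.ofRealCLM.hasDerivAt
  have h6 : HasDerivAt (fun y : ℝ => ((κ * Real.log y + 2 * Real.pi * x * y : ℝ) : ℂ))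
      ((κ * y⁻¹ + 2 * Real.pi * x : ℝ) : ℂ) y := by
    have h7 := (((Real.hasDerivAt_log hy0.ne').const_mul κ).add
      ((hasDerivAt_id y).const_mul (2 * Real.pi * x)))
    exact (h7.congr_deriv (by ring)).ofReal_comp
  have h8 : HasDerivAt (nspE κ x)
      (nspE κ x y * -(Complex.I * ((κ * y⁻¹ + 2 * Real.pi * x : ℝ) : ℂ))) y :=
    ((h6.const_mul Complex.I).neg).cexp
  have h9 := (((hG y).hasDerivAt.mul h5).mul h4).mul h8
  refine h9.congr_deriv ?_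
  have hq : ((nspD κ x y : ℝ) : ℂ) * ((nspQ κ x y : ℝ) : ℂ) = 1 := by
    rw [← Complex.ofReal_mul, nspQ, mul_inv_cancel₀ hne, Complex.ofReal_one]
  have hd : ((nspD κ x y : ℝ) : ℂ) = κ + 2 * Real.pi * x * y := by
    rw [nspD]
    push_cast
    ring
  have hq2 : ((-(2 * Real.pi * x) / (nspD κ x y) ^ 2 : ℝ) : ℂ) =
      -(2 * Real.pi * x) * ((nspQ κ x y : ℝ) : ℂ) ^ 2 := by
    rw [nspQ]
    push_cast
    rw [div_eq_mul_inv, inv_pow]
  have hyc : (y : ℂ) ≠ 0 := by exact_mod_cast hy0.ne'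
  have hyy : (y : ℂ) * ((κ * y⁻¹ + 2 * Real.pi * x : ℝ) : ℂ) = ((nspD κ x y : ℝ) : ℂ) := by
    rw [hd]
    push_cast
    field_simp
  simp only [nspF, nspG, Pi.mul_apply]
  rw [hq2]
  set q : ℂ := ((nspQ κ x y : ℝ) : ℂ) with hqdef
  set E : ℂ := nspE κ x y
  set W : ℂ := ((κ * y⁻¹ + 2 * Real.pi * x : ℝ) : ℂ)
  rw [hd] at hq hyy
  push_cast
  have e1 : (y : ℂ) * (2 * Real.pi * x) * q = 1 - κ * q := by linear_combination hq
  have e2 : (y : ℂ) * W * q = 1 := by rw [hyy]; exact hq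
  linear_combination (-(G y) * ((M : ℂ) + 1) * q ^ (M + 1) * E) * e1 -
    (Complex.I * G y * q ^ M * E) * e2

theorem nsp_step {K κ x : ℝ} (h : NspOK K κ x) {G : ℝ → ℂ} (hG : ContDiff ℝ ∞ G)
    (hs : ∀ y, y ∉ Set.Icc (3 / 20 : ℝ) (9 / 50) → G y = 0) (M : ℕ) :
    Complex.I * nspJ G M κ x =
      nspJ (nspG G M) (M + 1) κ x + ((M : ℂ) + 1) * κ * nspJ G (M + 2) κ x := by
  have hGc : Continuous G := hG.continuous
  have hGd : Differentiable ℝ G := hG.differentiable (by simp)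
  have hG1 : Continuous (nspG G M) := (nsp_G_smooth hG M).continuous
  have i1 := nsp_ii h hG1 (M + 1)
  have i2 := (nsp_ii h hGc (M + 2)).const_mul (((M : ℂ) + 1) * κ)
  have i3 := (nsp_ii h hGc M).const_mul Complex.I
  have h1 := intervalIntegral.integral_eq_sub_of_hasDerivAt
    (a := (3 / 20 : ℝ)) (b := 9 / 50)
    (f := fun y : ℝ => G y * (y : ℂ) * ((nspQ κ x y : ℝ) : ℂ) ^ (M + 1) * nspE κ x y)
    (fun y hy => nsp_deriv h hGd M (by rwa [nsp_uIcc] at hy)) ((i1.add i2).sub i3)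
  obtain ⟨e1, e2⟩ := nsp_end hGc hs
  rw [e1, e2, intervalIntegral.integral_sub (i1.add i2) i3,
    intervalIntegral.integral_add i1 i2, intervalIntegral.integral_const_mul,
    intervalIntegral.integral_const_mul] at h1
  simp only [zero_mul, sub_zero] at h1
  rw [nspJ, nspJ, nspJ]
  linear_combination -h1

theorem nsp_base {G : ℝ → ℂ} (hG : Continuous G) (n j : ℕ) : ∃ C : ℝ, 0 ≤ C ∧
    ∀ K κ x : ℝ, NspOK K κ x → κ ^ j * ‖nspJ G (n + j) κ x‖ ≤ C / (K + |x|) ^ n := by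
  obtain ⟨B, hB⟩ := (isCompact_Icc (a := (3 / 20 : ℝ)) (b := 9 / 50)).exists_bound_of_continuousOn
    hG.continuousOn
  refine ⟨|B| * 25 ^ j * (25 / 2) ^ n, by positivity, fun K κ x h => ?_⟩
  have hL := nsp_lam h
  have hκ : 0 < κ := h.pos.trans_le h.lo
  have hκ2 : κ ≤ 2 * (K + |x|) := by
    have := abs_nonneg x
    linarith [h.up]
  have h1 : ‖nspJ G (n + j) κ x‖ ≤ |B| * (25 / 2 / (K + |x|)) ^ (n + j) * |9 / 50 - 3 / 20| := by
    refine intervalIntegral.norm_integral_le_of_norm_le_const fun y hy => ?_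
    have hy' : y ∈ Set.Icc (3 / 20 : ℝ) (9 / 50) := by
      rw [← nsp_uIcc]
      exact Set.uIoc_subset_uIcc hy
    rw [nspF, norm_mul, norm_mul, nsp_Enorm, mul_one, norm_pow, Complex.norm_real,
      Real.norm_eq_abs]
    exact mul_le_mul ((hB y hy').trans (le_abs_self B))
      (pow_le_pow_left₀ (abs_nonneg _) (nsp_qle h hy') _) (by positivity) (abs_nonneg _)
  have h2 : |(9 / 50 : ℝ) - 3 / 20| ≤ 1 := by
    rw [abs_le]
    norm_num
  have h3 : ‖nspJ G (n + j) κ x‖ ≤ |B| * (25 / 2 / (K + |x|)) ^ (n + j) :=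
    h1.trans (mul_le_of_le_one_right (by positivity) h2)
  calc κ ^ j * ‖nspJ G (n + j) κ x‖ ≤ (2 * (K + |x|)) ^ j *
        (|B| * (25 / 2 / (K + |x|)) ^ (n + j)) :=
        mul_le_mul (pow_le_pow_left₀ hκ.le hκ2 j) h3 (norm_nonneg _) (by positivity)
    _ = |B| * 25 ^ j * (25 / 2) ^ n / (K + |x|) ^ n := by
        have h4 : (2 * (K + |x|)) ^ j * (25 / 2 / (K + |x|)) ^ j = 25 ^ j := by
          rw [← mul_pow]
          congr 1
          field_simp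
        rw [pow_add, div_pow (25 / 2 : ℝ) (K + |x|) n]
        calc _ = |B| * ((2 * (K + |x|)) ^ j * (25 / 2 / (K + |x|)) ^ j) *
              ((25 / 2) ^ n / (K + |x|) ^ n) := by ring
          _ = _ := by rw [h4]; ring

theorem nsp_ind (k : ℕ) : ∀ (G : ℝ → ℂ), ContDiff ℝ ∞ G →
    (∀ y, y ∉ Set.Icc (3 / 20 : ℝ) (9 / 50) → G y = 0) → ∀ n j : ℕ, ∃ C : ℝ, 0 ≤ C ∧
      ∀ K κ x : ℝ, NspOK K κ x → κ ^ j * ‖nspJ G (n + j) κ x‖ ≤ C / (K + |x|) ^ (n + k) := by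
  induction k with
  | zero => exact fun G hG _ n j => nsp_base hG.continuous n j
  | succ k ih =>
    intro G hG hs n j
    obtain ⟨C₁, hC₁, h₁⟩ := ih (nspG G (n + j)) (nsp_G_smooth hG _) (nsp_G_supp hs _) (n + 1) j
    obtain ⟨C₂, hC₂, h₂⟩ := ih G hG hs (n + 1) (j + 1)
    refine ⟨C₁ + ((n + j : ℕ) + 1) * C₂, by positivity, fun K κ x h => ?_⟩
    have hκ : 0 < κ := h.pos.trans_le h.lo
    have e := nsp_step h hG hs (n + j)
    have e1 : ‖nspJ G (n + j) κ x‖ ≤ ‖nspJ (nspG G (n + j)) (n + j + 1) κ x‖ +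
        (((n + j : ℕ) : ℝ) + 1) * κ * ‖nspJ G (n + j + 2) κ x‖ := by
      have e2 : ‖nspJ G (n + j) κ x‖ = ‖Complex.I * nspJ G (n + j) κ x‖ := by
        rw [norm_mul, Complex.norm_I, one_mul]
      rw [e2, e]
      refine (norm_add_le _ _).trans (le_of_eq ?_)
      congr 1
      rw [norm_mul, norm_mul, Complex.norm_real, Real.norm_of_nonneg hκ.le]
      congr 2
      have e3 : (((n + j : ℕ) : ℂ) + 1) = (((n + j + 1 : ℕ) : ℝ) : ℂ) := by push_cast; ring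
      rw [e3, Complex.norm_real, Real.norm_of_nonneg (by positivity)]
      push_cast
      ring
    have a1 := h₁ K κ x h
    have a2 := h₂ K κ x h
    have r1 : n + 1 + j = n + j + 1 := by ring
    have r2 : n + 1 + (j + 1) = n + j + 2 := by ring
    have r3 : n + 1 + k = n + (k + 1) := by ring
    rw [r1, r3] at a1
    rw [r2, r3] at a2
    calc κ ^ j * ‖nspJ G (n + j) κ x‖ ≤ κ ^ j * (‖nspJ (nspG G (n + j)) (n + j + 1) κ x‖ +
          (((n + j : ℕ) : ℝ) + 1) * κ * ‖nspJ G (n + j + 2) κ x‖) :=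
          mul_le_mul_of_nonneg_left e1 (by positivity)
      _ = κ ^ j * ‖nspJ (nspG G (n + j)) (n + j + 1) κ x‖ +
          (((n + j : ℕ) : ℝ) + 1) * (κ ^ (j + 1) * ‖nspJ G (n + j + 2) κ x‖) := by ring
      _ ≤ C₁ / (K + |x|) ^ (n + (k + 1)) +
          (((n + j : ℕ) : ℝ) + 1) * (C₂ / (K + |x|) ^ (n + (k + 1))) :=
          add_le_add a1 (mul_le_mul_of_nonneg_left a2 (by positivity))
      _ = _ := by ring

theorem nsp_decay_pr (G : ℝ → ℂ) (hG : ContDiff ℝ ∞ G)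
    (hs : ∀ y, y ∉ Set.Icc (3 / 20 : ℝ) (9 / 50) → G y = 0) (m : ℕ) : ∃ C : ℝ, 0 ≤ C ∧
    ∀ K κ x : ℝ, 0 < K → K ≤ κ → κ ≤ 2 * K → (-(3 / 4 * K) ≤ x ∨ x ≤ -(29 / 10 * K)) →
      ‖∫ y in (3 / 20 : ℝ)..(9 / 50), G y *
        Complex.exp (-(Complex.I * ((κ * Real.log y + 2 * Real.pi * x * y : ℝ) : ℂ)))‖ ≤
      C / (K + |x|) ^ m := by
  obtain ⟨C, hC, h⟩ := nsp_ind m G hG hs 0 0
  refine ⟨C, hC, fun K κ x h0 h1 h2 h3 => ?_⟩
  have h4 := h K κ x ⟨h0, h1, h2, h3⟩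
  rw [pow_zero, one_mul, zero_add, zero_add] at h4
  refine le_trans (le_of_eq ?_) h4
  rw [nspJ]
  congr 1
  refine intervalIntegral.integral_congr fun y _ => ?_
  simp only [nspF, nspE, pow_zero, mul_one]

/-! ## final names -/

theorem nsp_decay (G : ℝ → ℂ) (hG : ContDiff ℝ ∞ G)
    (hs : ∀ y, y ∉ Set.Icc (3 / 20 : ℝ) (9 / 50) → G y = 0) (m : ℕ) : ∃ C : ℝ, 0 ≤ C ∧
    ∀ K κ x : ℝ, 0 < K → K ≤ κ → κ ≤ 2 * K → (-(3 / 4 * K) ≤ x ∨ x ≤ -(29 / 10 * K)) →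
      ‖∫ y in (3 / 20 : ℝ)..(9 / 50), G y *
        Complex.exp (-(Complex.I * ((κ * Real.log y + 2 * Real.pi * x * y : ℝ) : ℂ)))‖ ≤
      C / (K + |x|) ^ m :=
  nsp_decay_pr G hG hs m

end Pool.Agent.JOL
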