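import Pool.Agent.Lib_helper87.JOL.KAP
import Pool.Agent.Lib_helper87.JOL.KAN
import Pool.Agent.Lib_helper87.JOL.GUP
import Pool.Agent.Lib_helper87.JOL.NSP
import Pool.Agent.Lib_helper87.JOL.HME
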