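import Pool.Agent.Lib_helper87.JOL.KPR
import Pool.Agent.Lib_helper87.JOL.KDV

/-!
# Project JO: the Mellin transform of `K_ν(x)²` in the form used by the Maass frame
-/

set_option autoImplicit false

namespace Pool.Agent.JOL

open MeasureTheory Filter Topology Set
open Pool.Agent.JO Pool.Agent.JO.FM
open scoped ComplexConjugate ENNReal ContDiff

theorem kk_mellin {ν : ℂ} (hν : GoodNu ν) {s : ℂ} (hs : 2 * ν.re < s.re) :
    IntegrableOn (fun x : ℝ => KK ν x ^ 2 * (x : ℂ) ^ (s - 1)) (Ioi 0) ∧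
    ∫ x in Ioi (0 : ℝ), KK ν x ^ 2 * (x : ℂ) ^ (s - 1) = kap ν s := by
  have h0 : |ν.re| + |ν.re| < s.re := by
    rw [abs_of_nonneg hν.nonneg]; linarith
  have h1 := kpr_int ν ν s h0
  have h2 := kpr_mellin ν ν s h0
  have h3 : (fun x : ℝ => KK ν x ^ 2 * (x : ℂ) ^ (s - 1)) =
      fun x : ℝ => KK ν x * KK ν x * (x : ℂ) ^ (s - 1) := by
    funext x; ring
  rw [h3]
  refine ⟨h1, ?_⟩
  rw [h2, kap]
  rw [show (s + ν + ν) / 2 = s / 2 + ν by ring, show (s - ν - ν) / 2 = s / 2 - ν by ring,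
    show (s + ν - ν) / 2 = s / 2 by ring, show (s - ν + ν) / 2 = s / 2 by ring]
  ring

theorem kk_real {ν : ℂ} (h : GoodNu ν) (x : ℝ) : (KK ν x).im = 0 := by
  have h1 : conj (KK ν x) = KK ν x := by
    rw [kdv_conj]
    rcases h.real_or with h2 | h2
    · congr 1
      exact Complex.conj_eq_iff_im.2 h2
    · have h3 : conj ν = -ν := by
        apply Complex.ext
        · simp [h2]
        · simp
      rw [h3, kdv_neg]
  exact Complex.conj_eq_iff_im.1 h1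

theorem kk_bound' (μ : ℂ) {b : ℝ} (hb : |μ.re| < b) :
    ∃ C : ℝ, ∀ x : ℝ, 0 < x → ‖KK μ x‖ ≤ C * x ^ (-b) * Real.exp (-(x / 2)) := by
  obtain ⟨C, _, h⟩ := kbd_bound μ b (lt_of_le_of_lt (abs_nonneg _) hb) hb.le
  exact ⟨C, h⟩

end Pool.Agent.JOL
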