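import Pool.Agent.Lib_helper45.JO.Defs

/-! Block KBD of project JO (helper1). -/

set_option autoImplicit false

namespace Pool.Agent.JOL

open MeasureTheory Filter Topology
open Pool.Agent.JO Pool.Agent.JO.FM

theorem kbd_aux_bd (a : ℝ) (ha : 0 < a) : ∃ C : ℝ, 1 ≤ C ∧ ∀ v : ℝ,
    Real.exp (a * v - Real.exp v) ≤ C * Real.exp (-(a * |v|)) := by
  set n : ℕ := ⌈2 * a⌉₊ with hn
  refine ⟨(n.factorial : ℝ), ?_, fun v => ?_⟩
  · exact_mod_cast Nat.one_le_iff_ne_zero.2 (Nat.factorial_ne_zero n)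
  have hf : (1 : ℝ) ≤ (n.factorial : ℝ) := by
    exact_mod_cast Nat.one_le_iff_ne_zero.2 (Nat.factorial_ne_zero n)
  rcases le_total 0 v with hv | hv
  · rw [abs_of_nonneg hv]
    have h1 : Real.exp (2 * a * v) ≤ Real.exp v ^ n := by
      rw [← Real.exp_nat_mul]
      apply Real.exp_le_exp.2
      exact mul_le_mul_of_nonneg_right (Nat.le_ceil _) hv
    have h2 : Real.exp v ^ n / (n.factorial : ℝ) ≤ Real.exp (Real.exp v) :=
      Real.pow_div_factorial_le_exp _ (Real.exp_pos v).le n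
    have h3 : Real.exp v ^ n ≤ n.factorial * Real.exp (Real.exp v) := by
      rw [div_le_iff₀ (by positivity)] at h2
      linarith
    have h4 : Real.exp (a * v - Real.exp v) =
        Real.exp (2 * a * v) * Real.exp (-(Real.exp v)) * Real.exp (-(a * v)) := by
      rw [← Real.exp_add, ← Real.exp_add]
      congr 1
      ring
    rw [h4]
    refine mul_le_mul_of_nonneg_right ?_ (Real.exp_pos _).le
    calc Real.exp (2 * a * v) * Real.exp (-(Real.exp v))
        ≤ (n.factorial * Real.exp (Real.exp v)) * Real.exp (-(Real.exp v)) :=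
          mul_le_mul_of_nonneg_right (h1.trans h3) (Real.exp_pos _).le
      _ = n.factorial := by
          rw [mul_assoc, ← Real.exp_add, add_neg_cancel, Real.exp_zero, mul_one]
  · rw [abs_of_nonpos hv]
    have h1 : Real.exp (a * v - Real.exp v) ≤ Real.exp (-(a * -v)) := by
      apply Real.exp_le_exp.2
      have := Real.exp_pos v
      linarith
    calc Real.exp (a * v - Real.exp v) ≤ 1 * Real.exp (-(a * -v)) := by rw [one_mul]; exact h1
      _ ≤ n.factorial * Real.exp (-(a * -v)) :=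
          mul_le_mul_of_nonneg_right hf (Real.exp_pos _).le

theorem kbd_abs_int (a : ℝ) (ha : 0 < a) : Integrable (fun v : ℝ => Real.exp (-(a * |v|))) := by
  have h1 : IntegrableOn (fun v : ℝ => Real.exp (-(a * |v|))) (Set.Ioi 0) := by
    refine (exp_neg_integrableOn_Ioi 0 ha).congr_fun (fun v hv => ?_) measurableSet_Ioi
    have hv0 : (0 : ℝ) < v := hv
    simp only [abs_of_pos hv0, neg_mul]
  have h2 : IntegrableOn (fun v : ℝ => Real.exp (-(a * |v|))) (Set.Iic 0) := by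
    rw [← integrableOn_Ici_iff_integrableOn_Ioi] at h1
    have h3 := (Measure.measurePreserving_neg (volume : Measure ℝ)).integrableOn_comp_preimage
      (MeasurableEquiv.neg ℝ).measurableEmbedding (f := fun v : ℝ => Real.exp (-(a * |v|)))
      (s := Set.Ici 0)
    have h4 := h3.2 h1
    have h5 : (Neg.neg ⁻¹' Set.Ici (0 : ℝ)) = Set.Iic 0 := by
      ext x; simp
    rw [h5] at h4
    refine h4.congr_fun (fun v _ => ?_) measurableSet_Iic
    simp [Function.comp]
  rw [← integrableOn_univ, ← Set.Iic_union_Ioi (a := (0 : ℝ))]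
  exact h2.union h1

theorem kbd_base (a : ℝ) (ha : 0 < a) :
    Integrable (fun v : ℝ => Real.exp (a * v - Real.exp v)) := by
  obtain ⟨C, _, hC⟩ := kbd_aux_bd a ha
  refine ((kbd_abs_int a ha).const_mul C).mono' (by fun_prop) (ae_of_all _ fun v => ?_)
  rw [Real.norm_of_nonneg (Real.exp_pos _).le]
  exact hC v

theorem kbd_G_eq (a x : ℝ) (hx : 0 < x) (u : ℝ) :
    Real.exp (a * u - x / 4 * Real.exp u) =
      (x / 4) ^ (-a) * Real.exp (a * (u + Real.log (x / 4)) - Real.exp (u + Real.log (x / 4))) := by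
  have h4 : 0 < x / 4 := by positivity
  rw [Real.rpow_def_of_pos h4, ← Real.exp_add, Real.exp_add u, Real.exp_log h4]
  congr 1
  ring

theorem kbd_G_int (a x : ℝ) (ha : 0 < a) (hx : 0 < x) :
    Integrable (fun u : ℝ => Real.exp (a * u - x / 4 * Real.exp u)) := by
  simp only [kbd_G_eq a x hx]
  exact ((kbd_base a ha).comp_add_right (Real.log (x / 4))).const_mul _

theorem kbd_G_val (a x : ℝ) (hx : 0 < x) :
    ∫ u : ℝ, Real.exp (a * u - x / 4 * Real.exp u) =
      (x / 4) ^ (-a) * ∫ v : ℝ, Real.exp (a * v - Real.exp v) := by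
  simp only [kbd_G_eq a x hx]
  rw [integral_const_mul]
  congr 1
  exact integral_add_right_eq_self (fun v : ℝ => Real.exp (a * v - Real.exp v)) (Real.log (x / 4))

theorem kbd_norm (μ : ℂ) (x u : ℝ) :
    ‖Complex.exp (-(x : ℂ) * (Real.cosh u : ℝ) + μ * u)‖ =
      Real.exp (-(x * Real.cosh u) + μ.re * u) := by
  rw [Complex.norm_exp]
  congr 1
  simp

theorem kbd_dom (μ : ℂ) (a x : ℝ) (hx : 0 < x) (hμ : |μ.re| ≤ a) (u : ℝ) :
    ‖Complex.exp (-(x : ℂ) * (Real.cosh u : ℝ) + μ * u)‖ ≤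
      Real.exp (-(x / 2)) * (Real.exp (a * u - x / 4 * Real.exp u) +
        Real.exp (a * (-u) - x / 4 * Real.exp (-u))) := by
  rw [kbd_norm]
  have hp1 := Real.exp_pos (a * u - x / 4 * Real.exp u)
  have hp2 := Real.exp_pos (a * (-u) - x / 4 * Real.exp (-u))
  have hc1 : 1 ≤ Real.cosh u := Real.one_le_cosh u
  have hcu : Real.cosh u = (Real.exp u + Real.exp (-u)) / 2 := Real.cosh_eq u
  have he1 := Real.exp_pos u
  have he2 := Real.exp_pos (-u)
  have habs := abs_le.1 hμ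
  rw [mul_add, ← Real.exp_add, ← Real.exp_add]
  rcases le_total 0 u with hu | hu
  · have h1 : -(x * Real.cosh u) + μ.re * u ≤ -(x / 2) + (a * u - x / 4 * Real.exp u) := by
      have h2 : μ.re * u ≤ a * u := mul_le_mul_of_nonneg_right habs.2 hu
      have h3 : x / 2 + x / 4 * Real.exp u ≤ x * Real.cosh u := by
        have h4 : x / 2 * 1 ≤ x / 2 * Real.cosh u := mul_le_mul_of_nonneg_left hc1 (by positivity)
        have h5 : x / 2 * (Real.exp u / 2) ≤ x / 2 * Real.cosh u :=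
          mul_le_mul_of_nonneg_left (by rw [hcu]; linarith) (by positivity)
        linarith
      linarith
    exact (Real.exp_le_exp.2 h1).trans (le_add_of_nonneg_right (Real.exp_pos _).le)
  · have h1 : -(x * Real.cosh u) + μ.re * u ≤ -(x / 2) + (a * (-u) - x / 4 * Real.exp (-u)) := by
      have h2 : μ.re * u ≤ a * (-u) := by
        have := mul_le_mul_of_nonneg_right habs.1 (neg_nonneg.2 hu)
        linarith
      have h3 : x / 2 + x / 4 * Real.exp (-u) ≤ x * Real.cosh u := by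
        have h4 : x / 2 * 1 ≤ x / 2 * Real.cosh u := mul_le_mul_of_nonneg_left hc1 (by positivity)
        have h5 : x / 2 * (Real.exp (-u) / 2) ≤ x / 2 * Real.cosh u :=
          mul_le_mul_of_nonneg_left (by rw [hcu]; linarith) (by positivity)
        linarith
      linarith
    exact (Real.exp_le_exp.2 h1).trans (le_add_of_nonneg_left (Real.exp_pos _).le)

theorem kbd_dom_int (a x : ℝ) (ha : 0 < a) (hx : 0 < x) :
    Integrable (fun u : ℝ => Real.exp (-(x / 2)) * (Real.exp (a * u - x / 4 * Real.exp u) +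
        Real.exp (a * (-u) - x / 4 * Real.exp (-u)))) :=
  ((kbd_G_int a x ha hx).add (kbd_G_int a x ha hx).comp_neg).const_mul _

theorem kbd_int_pr (μ : ℂ) (x : ℝ) (hx : 0 < x) :
    Integrable (fun u : ℝ => Complex.exp (-(x : ℂ) * (Real.cosh u : ℝ) + μ * u)) := by
  have ha : 0 < |μ.re| + 1 := by positivity
  refine (kbd_dom_int (|μ.re| + 1) x ha hx).mono' ?_
    (ae_of_all _ fun u => kbd_dom μ _ x hx (by linarith) u)
  exact (by fun_prop : Continuous (fun u : ℝ =>
    Complex.exp (-(x : ℂ) * (Real.cosh u : ℝ) + μ * u))).aestronglyMeasurable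

theorem kbd_bound_pr (μ : ℂ) (a : ℝ) (ha : 0 < a) (hμ : |μ.re| ≤ a) : ∃ C : ℝ, 0 ≤ C ∧
    ∀ x : ℝ, 0 < x → ‖KK μ x‖ ≤ C * x ^ (-a) * Real.exp (-(x / 2)) := by
  set J : ℝ := ∫ v : ℝ, Real.exp (a * v - Real.exp v) with hJ
  have hJ0 : 0 ≤ J := integral_nonneg fun v => (Real.exp_pos _).le
  refine ⟨(4 : ℝ) ^ a * J, by positivity, fun x hx => ?_⟩
  have h1 : ‖∫ u : ℝ, Complex.exp (-(x : ℂ) * (Real.cosh u : ℝ) + μ * u)‖ ≤
      ∫ u : ℝ, Real.exp (-(x / 2)) * (Real.exp (a * u - x / 4 * Real.exp u) +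
        Real.exp (a * (-u) - x / 4 * Real.exp (-u))) :=
    norm_integral_le_of_norm_le (kbd_dom_int a x ha hx) (ae_of_all _ fun u =>
      kbd_dom μ a x hx hμ u)
  have h2 : ∫ u : ℝ, Real.exp (-(x / 2)) * (Real.exp (a * u - x / 4 * Real.exp u) +
        Real.exp (a * (-u) - x / 4 * Real.exp (-u))) =
      Real.exp (-(x / 2)) * (2 * ((x / 4) ^ (-a) * J)) := by
    rw [integral_const_mul, integral_add (kbd_G_int a x ha hx) (kbd_G_int a x ha hx).comp_neg,
      integral_neg_eq_self (fun u : ℝ => Real.exp (a * u - x / 4 * Real.exp u)), kbd_G_val a x hx]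
    ring
  have h3 : (x / 4) ^ (-a) = (4 : ℝ) ^ a * x ^ (-a) := by
    rw [Real.div_rpow hx.le (by norm_num), Real.rpow_neg (by norm_num : (0 : ℝ) ≤ 4) a, div_inv_eq_mul]
    ring
  unfold KK
  rw [norm_mul]
  have h4 : ‖(1 / 2 : ℂ)‖ = 1 / 2 := by norm_num
  rw [h4]
  rw [h2, h3] at h1
  calc 1 / 2 * ‖∫ u : ℝ, Complex.exp (-(x : ℂ) * (Real.cosh u : ℝ) + μ * u)‖
      ≤ 1 / 2 * (Real.exp (-(x / 2)) * (2 * ((4 : ℝ) ^ a * x ^ (-a) * J))) :=
        mul_le_mul_of_nonneg_left h1 (by norm_num)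
    _ = (4 : ℝ) ^ a * J * x ^ (-a) * Real.exp (-(x / 2)) := by ring

theorem kbd_meas_pr (μ : ℂ) : Measurable (KK μ) := by
  unfold KK
  refine Measurable.const_mul ?_ _
  have h : StronglyMeasurable (fun p : ℝ × ℝ =>
      Complex.exp (-(p.1 : ℂ) * (Real.cosh p.2 : ℝ) + μ * p.2)) := by
    refine Continuous.stronglyMeasurable ?_
    fun_prop
  exact (h.integral_prod_right (ν := volume)).measurable

/-! ## final names -/

theorem kbd_int (μ : ℂ) (x : ℝ) (hx : 0 < x) :
    Integrable (fun u : ℝ => Complex.exp (-(x : ℂ) * (Real.cosh u : ℝ) + μ * u)) :=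
  kbd_int_pr μ x hx

theorem kbd_bound (μ : ℂ) (a : ℝ) (ha : 0 < a) (hμ : |μ.re| ≤ a) : ∃ C : ℝ, 0 ≤ C ∧
    ∀ x : ℝ, 0 < x → ‖KK μ x‖ ≤ C * x ^ (-a) * Real.exp (-(x / 2)) :=
  kbd_bound_pr μ a ha hμ

theorem kbd_meas (μ : ℂ) : Measurable (KK μ) :=
  kbd_meas_pr μ

end Pool.Agent.JOL
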